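import Pool.Agent.MP_d228e7_nt.Mart

/-!
Counting the windows with few survivors.
-/

set_option autoImplicit false

open Finset

noncomputable section

namespace Pool.Agent.MP_d228e7_nt

open Pool.Agent.MP_cebb75_nt Pool.Agent.MP_fdd1d3_nt

/-- conditional expectation when the primes in `Q` are revealed -/
def cond (P : Finset ℕ) (f : ℕ → ℝ) (Q : Finset ℕ) (w : ℕ) : ℝ := E1 (P \ Q) fun v => f (w + v)

theorem cond_empty (P : Finset ℕ) (f : ℕ → ℝ) (n : ℕ) : cond P f ∅ (om ∅ 0 n) = E1 P f := by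
  simp [cond, om]

theorem cond_self (P : Finset ℕ) (f : ℕ → ℝ) (w : ℕ) : cond P f P w = f w := by
  simp [cond, E1, EE]

theorem cond_insert {P Q : Finset ℕ} {p : ℕ} (hp : p ∈ P) (hQ : p ∉ Q) (f : ℕ → ℝ) (n : ℕ) :
    cond P f (insert p Q) (om (insert p Q) 0 n) = cond P f Q (om Q 0 n) +
      (cond P f (insert p Q) (om Q 0 n + 1) - cond P f (insert p Q) (om Q 0 n)) * chi p n := by
  have h1 : P \ Q = insert p (P \ insert p Q) := by
    ext x
    simp only [mem_sdiff, mem_insert]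
    by_cases h : x = p
    · simp [h, hp, hQ]
    · simp [h]
  have h2 : ∀ w, cond P f Q w =
      1 / (p : ℝ) * cond P f (insert p Q) (w + 1) + bb p * cond P f (insert p Q) w := fun w => by
    rw [cond, h1, E1_insert (by simp)]
    simp only [cond, add_assoc, add_comm 1]
  rw [om_insert hQ, h2, chi, bb]
  split_ifs
  · ring
  · rw [add_zero]
    ring

theorem cond_diff {P : Finset ℕ} {f : ℕ → ℝ} {a A K : ℝ} (ha : 1 ≤ a) (hA : 0 ≤ A)
    (hf : ∀ w, 0 ≤ f w ∧ f w ≤ A * (1 + 1 / a) ^ w) (hK : ∑ p ∈ P, 1 / (p : ℝ) ≤ K)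
    (Q : Finset ℕ) (w : ℕ) :
    |cond P f Q (w + 1) - cond P f Q w| ≤ A * (2 * Real.exp K * (1 + 1 / a) ^ w) := by
  have h0 : 1 / a ≤ 1 := div_le_one_of_le₀ ha (by linarith)
  have h0' : 0 ≤ 1 / a := by positivity
  have h1 : ∀ w, 0 ≤ cond P f Q w ∧ cond P f Q w ≤ A * (1 + 1 / a) ^ w * Real.exp K := fun w => by
    refine ⟨E1_nonneg _ fun v => (hf _).1, ?_⟩
    refine (E1_mono _ (g := fun v => A * (1 + 1 / a) ^ w * (1 + 1 / a) ^ v) fun v => by
      rw [mul_assoc, ← pow_add]; exact (hf _).2).trans ?_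
    rw [E1_mul]
    refine mul_le_mul_of_nonneg_left ((E1_pow_le _ _ (by linarith)).trans
      (Real.exp_le_exp.2 ?_)) (by positivity)
    have h2 : ∑ p ∈ P \ Q, 1 / (p : ℝ) ≤ ∑ p ∈ P, 1 / (p : ℝ) :=
      sum_le_sum_of_subset_of_nonneg sdiff_subset fun _ _ _ => by positivity
    have h3 : 0 ≤ ∑ p ∈ P \ Q, 1 / (p : ℝ) := sum_nonneg fun _ _ => by positivity
    nlinarith
  obtain ⟨h2, h3⟩ := h1 (w + 1)
  obtain ⟨h4, h5⟩ := h1 w
  have h6 : 0 ≤ A * (1 + 1 / a) ^ w * Real.exp K := by positivity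
  rw [pow_succ] at h3
  rw [abs_le]
  constructor <;> nlinarith

theorem one_add_pow_le (q : ℕ) : (1 + 1 / (q : ℝ)) ^ q ≤ 3 := by
  rcases Nat.eq_zero_or_pos q with rfl | hq
  · norm_num
  calc (1 + 1 / (q : ℝ)) ^ q ≤ Real.exp (1 / q) ^ q :=
        pow_le_pow_left₀ (by positivity) (by linarith [Real.add_one_le_exp (1 / q : ℝ)]) _
    _ = Real.exp 1 := by
        rw [← Real.exp_nat_mul]
        congr 1
        field_simp
    _ ≤ 3 := by linarith [Real.exp_one_lt_d9]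

theorem av_pow_le {S : Finset ℕ} (hS : ∀ p ∈ S, p.Prime) {r : ℕ} (hq : Even (r + 2)) {A μ : ℝ}
    (hA : 0 ≤ A) (hμ : ∑ p ∈ S, 1 / (p : ℝ) ≤ μ) {g : ℕ → ℝ}
    (hg : ∀ n, |g n| ≤ A * (1 + 1 / ((r + 2 : ℕ) : ℝ)) ^ om S 0 n) :
    av (∏ p ∈ S, p) (fun n => g n ^ (r + 2)) ≤ (A * Real.exp μ) ^ (r + 2) := by
  have h1 : ∀ n, g n ^ (r + 2) ≤ A ^ (r + 2) * 3 ^ om S 0 n := fun n => by
    rw [← hq.pow_abs]
    refine (pow_le_pow_left₀ (abs_nonneg _) (hg n) _).trans ?_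
    rw [mul_pow, ← pow_mul, mul_comm (om S 0 n), pow_mul]
    exact mul_le_mul_of_nonneg_left (pow_le_pow_left₀ (by positivity) (one_add_pow_le _) _)
      (by positivity)
  refine (av_mono h1).trans ?_
  rw [av_const_mul, av_om S hS fun w => 3 ^ w, mul_pow, ← Real.exp_nat_mul]
  refine mul_le_mul_of_nonneg_left ((E1_pow_le _ _ (by norm_num)).trans (Real.exp_le_exp.2 ?_))
    (by positivity)
  have h3 : 0 ≤ ∑ p ∈ S, 1 / (p : ℝ) := sum_nonneg fun _ _ => by positivity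
  push_cast
  nlinarith [mul_nonneg (Nat.cast_nonneg (α := ℝ) r) (h3.trans hμ)]

variable {P : Finset ℕ} {lo up : ℕ → ℝ} {M s : ℝ} {D : ℕ}

theorem moment {r u t w m : ℕ} (hq : Even (r + 2)) (h : SP ((r + 2 : ℕ) : ℝ) P lo up M D s)
    (hP : ∀ p ∈ P, p.Prime) (hd : Disjoint P (PP u (2 * t))) (hw : 0 < w) (hu : w ^ 2 ≤ u)
    {K μ : ℝ} (hK : ∑ p ∈ PP u (2 * t), 1 / (p : ℝ) ≤ K)
    (hμ : ∑ p ∈ P ∪ PP u (2 * t), 1 / (p : ℝ) ≤ μ) :
    av (∏ p ∈ P ∪ PP u (2 * t), p) (fun n => (∑ b ∈ range t,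
      (lo (n + b) * (BB m (om (PP u (2 * t)) 0 (n + b)) - E1 (PP u (2 * t)) (BB m)) -
        up (n + b) * (RR m (om (PP u (2 * t)) 0 (n + b)) - E1 (PP u (2 * t)) (RR m)))) ^ (r + 2))
      ≤ (2 ^ (r + 2) * (4 * t * ((3 * ((r + 2 : ℕ) : ℝ)) ^ (D + (2 * m + 1)) * (2 * Real.exp K) *
        Real.exp μ)) / w) ^ (r + 2) := by
  set P' := PP u (2 * t) with hP'
  set a : ℝ := ((r + 2 : ℕ) : ℝ) with ha'
  have ha : 1 ≤ a := by rw [ha']; exact_mod_cast (by omega : 1 ≤ r + 2)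
  set Λ := (3 * a) ^ (D + (2 * m + 1)) * (2 * Real.exp K) * Real.exp μ with hΛ
  set R := 2 ^ (r + 2) * (4 * t * Λ) / w with hR
  have hw' : (0 : ℝ) < w := by exact_mod_cast hw
  have hwu : w ≤ u := (Nat.le_self_pow two_ne_zero w).trans hu
  have key := mart hP (P' := P') (fun p => PP_prime) hd (t := t) hq
    (fun p hp => ((mem_PP _ _ _).1 hp).1.2)
    (fun Q n => lo n * (cond P' (BB m) Q (om Q 0 n) - E1 P' (BB m)) -
      up n * (cond P' (RR m) Q (om Q 0 n) - E1 P' (RR m)))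
    (fun Q p n => lo n * (cond P' (BB m) (insert p Q) (om Q 0 n + 1) -
      cond P' (BB m) (insert p Q) (om Q 0 n)) - up n *
        (cond P' (RR m) (insert p Q) (om Q 0 n + 1) - cond P' (RR m) (insert p Q) (om Q 0 n)))
    (Λ := Λ) (R := R) (fun p => w / (2 ^ (r + 2) * p)) (fun p hp => ?_)
    (fun n => by simp only [cond_empty, sub_self, mul_zero]) (fun Q hQ x y hxy => ?_)
    (fun Q hQ p hp hpQ => ⟨fun x y hxy => ?_, ?_, fun n => ?_⟩) P' Subset.rfl
  · simp only [cond_self] at key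
    have h1 : ∏ p ∈ P', (1 + 2 ^ (r + 2) * ((w : ℝ) / (2 ^ (r + 2) * p)) ^ 2) ≤ 2 := by
      refine (Real.prod_one_add_le_exp_sum _ fun p => by positivity).trans ?_
      have h2 : ∑ p ∈ P', (2 : ℝ) ^ (r + 2) * ((w : ℝ) / (2 ^ (r + 2) * (p : ℝ))) ^ 2 =
          (w : ℝ) ^ 2 / 2 ^ (r + 2) * ∑ p ∈ P', (1 / (p : ℝ)) ^ 2 := by
        rw [mul_sum]
        refine sum_congr rfl fun p hp => ?_
        have : (0 : ℝ) < p := by exact_mod_cast (PP_prime hp).pos
        field_simp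
      have hu0 : (0 : ℝ) < u := by exact_mod_cast hw.trans_le hwu
      have h3 : ∑ p ∈ P', (1 / (p : ℝ)) ^ 2 ≤ 1 / (u : ℝ) :=
        (sum_le_sum_of_subset_of_nonneg (filter_subset _ _) fun _ _ _ => by positivity).trans
          (inv_sq_tail u _ (hw.trans_le hwu))
      have h4 : (w : ℝ) ^ 2 / 2 ^ (r + 2) ≤ u / 2 :=
        div_le_div₀ hu0.le (by exact_mod_cast hu) two_pos (le_self_pow₀ one_le_two (by omega))
      have h5 := mul_le_mul h4 h3 (sum_nonneg fun _ _ => by positivity) (by positivity)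
      rw [h2, ← Real.le_log_iff_exp_le two_pos]
      refine h5.trans ?_
      rw [div_mul_div_comm, mul_one, mul_comm, ← div_div, div_self hu0.ne']
      linarith [Real.log_two_gt_d9]
    have h2 := mul_le_mul_of_nonneg_right h1 (hq.pow_nonneg R)
    linarith
  · have h1 : (0 : ℝ) < p := by exact_mod_cast (PP_prime hp).pos
    have h2 : (w : ℝ) ≤ p := by exact_mod_cast hwu.trans ((mem_PP _ _ _).1 hp).1.1.le
    refine ⟨by positivity, div_le_one_of_le₀ (h2.trans (le_mul_of_one_le_left h1.le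
      (one_le_pow₀ one_le_two))) (by positivity), ?_⟩
    rw [hR]
    field_simp
  · have h1 := per_union (hd.mono_right hQ) h.per_lo
      (fun v => cond P' (BB m) Q v - E1 P' (BB m)) x y hxy
    have h2 := per_union (hd.mono_right hQ) h.per_up
      (fun v => cond P' (RR m) Q v - E1 P' (RR m)) x y hxy
    simp only at h1 h2 ⊢
    rw [h1, h2]
  · have h1 := per_union (hd.mono_right hQ) h.per_lo
      (fun v => cond P' (BB m) (insert p Q) (v + 1) - cond P' (BB m) (insert p Q) v) x y hxy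
    have h2 := per_union (hd.mono_right hQ) h.per_up
      (fun v => cond P' (RR m) (insert p Q) (v + 1) - cond P' (RR m) (insert p Q) v) x y hxy
    simp only at h1 h2 ⊢
    rw [h1, h2]
  · refine av_pow_le (fun q hq => (mem_union.1 hq).elim (hP q) fun h => PP_prime (hQ h)) hq
      (by positivity) ((sum_le_sum_of_subset_of_nonneg (union_subset_union_right hQ)
        fun _ _ _ => by positivity).trans hμ) fun n => ?_
    have h1 := cond_diff ha (A := 2 * a ^ (2 * m + 1)) (by positivity)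
      (fun v => ⟨BB_nonneg m v, by rw [mul_assoc]; exact BB_le ha m v⟩) hK (insert p Q) (om Q 0 n)
    have h2 := cond_diff ha (by positivity)
      (fun v => ⟨RR_nonneg m v, RR_le ha m v⟩) hK (insert p Q) (om Q 0 n)
    have h3 := mul_le_mul (h.abs_lo n) h1 (abs_nonneg _) (by positivity)
    have h4 := mul_le_mul (h.abs_up n) h2 (abs_nonneg _) (by positivity)
    have h5 : (3 : ℝ) ≤ 3 ^ (2 * m + 1) := le_self_pow₀ (by norm_num) (by omega)
    have h6 := mul_le_mul_of_nonneg_right h5 (show 0 ≤ (3 * a) ^ D * (1 + 1 / a) ^ om P 0 n *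
      (a ^ (2 * m + 1) * (2 * Real.exp K * (1 + 1 / a) ^ om Q 0 n)) by positivity)
    refine (abs_sub _ _).trans ?_
    rw [abs_mul, abs_mul, om_union (hd.mono_right hQ), pow_add (3 * a), pow_add (1 + 1 / a),
      mul_pow 3 a (2 * m + 1)]
    linarith
  · simp only [cond_insert hp hpQ]
    ring

theorem MS.pow_disc {g : ℕ → ℝ} (hP : ∀ p ∈ P, 0 < p) (h : MS P g M) (hg : Per (∏ p ∈ P, p) g)
    (t q x X : ℕ) : ∑ n ∈ range x, (∑ b ∈ range t, g (n + X + b)) ^ q ≤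
      x * av (∏ p ∈ P, p) (fun n => (∑ b ∈ range t, g (n + b)) ^ q) + (t * M) ^ q := by
  have h1 := Mult.sum (range t) (fun b n => g (n + (X + b))) (fun _ => M)
    fun b _ => h (∏ p ∈ P, p) x (X + b) fun p hp => dvd_prod_of_mem _ hp
  have h2 := (Mult.prod (range q) _ _ fun _ _ => h1).disc (prod_pos hP)
  have h3 : Per (∏ p ∈ P, p) fun n => (∑ b ∈ range t, g (n + b)) ^ q := fun m n hmn => by
    simp only [fun b => hg.shift b m n hmn]
  rw [← av_shift h3 X]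
  simpa only [av, prod_const, sum_const, card_range, nsmul_eq_mul, Pi.pow_apply,
    Finset.sum_apply, add_assoc] using h2

theorem count_bad {r u t w m : ℕ} (hq : Even (r + 2))
    (h : SP ((r + 2 : ℕ) : ℝ) (PP 0 u) lo up M D (1 / 4)) (hw : 0 < w) (hu : w ^ 2 ≤ u)
    (hut : u ≤ 2 * t) (ht : 1 ≤ t) {K μ γ : ℝ} (hK : ∑ p ∈ PP u (2 * t), 1 / (p : ℝ) ≤ K)
    (hμ : ∑ p ∈ PP 0 (2 * t), 1 / (p : ℝ) ≤ μ) (hε : Real.exp (4 * K) ≤ 1 / 4 * 2 ^ (2 * m + 1))
    (hγ : 0 < γ) (hV : 2 * γ + 4 * M ≤ t * (∏ p ∈ PP 0 (2 * t), bb p) / 2) (x X : ℕ) :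
    (((range x).filter fun n =>
      ∑ b ∈ range t, pt 0 (om (PP 0 (2 * t)) 0 (n + X + b)) < γ).card : ℝ) * γ ^ (r + 2) ≤
      x * (2 ^ (r + 2) * (4 * t * ((3 * ((r + 2 : ℕ) : ℝ)) ^ (D + (2 * m + 1)) * (2 * Real.exp K) *
        Real.exp μ)) / w) ^ (r + 2) + (t * (M * (2 * t : ℕ) ^ (2 * m + 2) + 2 * M)) ^ (r + 2) := by
  have hU := PP_union hut
  have hd := PP_disj 0 u (2 * t)
  have hmom := moment (m := m) hq h (fun p => PP_prime) hd hw hu hK (hU.symm ▸ hμ)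
  have hu1 : 1 ≤ u := (Nat.pow_pos hw).trans_le hu
  have h' := h.step (by exact_mod_cast (by omega : 1 ≤ r + 2)) (fun p => PP_prime)
    (fun p => PP_prime) hd hK m hε (PP_card hu1 (by omega))
    (by exact_mod_cast (by omega : 2 ≤ 2 * t))
  set P' := PP u (2 * t) with hP'
  set EB := E1 P' (BB m) with hEB
  set ER := E1 P' (RR m) with hER
  have hM := h.ms_lo.nonneg fun p hp => (PP_prime hp).pos
  have e1 : 0 ≤ EB := E1_nonneg _ (BB_nonneg m)
  have e2 : 0 ≤ ER := E1_nonneg _ (RR_nonneg m)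
  have e3 : ER ≤ 1 / 4 * EB := E1_RR (fun p hp => (PP_prime hp).two_le) hK m hε
  have e4 : EB ≤ ER + 1 := by
    rw [← E1_one P', hER, ← E1_add]
    exact E1_mono _ fun v => by linarith [BB_sub m v, pt_le_one v]
  have mA : MS (PP 0 u) (fun n => lo n * EB - up n * ER) (2 * M) := by
    refine ((h.ms_lo.mul (MS.const _ EB)).sub (h.ms_up.mul (MS.const _ ER))).mono ?_
    rw [abs_of_nonneg e1, abs_of_nonneg e2]
    nlinarith
  have mG := h'.ms_lo.sub (mA.subset subset_union_left)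
  have hdisc := mG.pow_disc (fun p hp => (PP_prime (hU ▸ hp)).pos) (fun a b hab => by
    have h1 := h'.per_lo a b hab
    rw [prod_union hd] at hab
    simp only at h1 ⊢
    rw [h1, h.per_lo a b (hab.of_mul_right _), h.per_up a b (hab.of_mul_right _)]) t (r + 2) x X
  have e5 : (∏ p ∈ PP 0 (2 * t), bb p) / 2 ≤
      av (∏ p ∈ PP 0 u, p) (fun n => lo n * EB - up n * ER) := by
    have h1 := h'.mean
    have h2 := h'.av_up fun p hp => PP_prime (hU ▸ hp)
    rw [av_sub, av_union (fun p => PP_prime) (fun p => PP_prime) hd h.per_lo,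
      av_union (Q := P') (f := RR m) (fun p => PP_prime) (fun p => PP_prime) hd h.per_up] at h1
    rw [av_sub]
    simp only [mul_comm _ EB, mul_comm _ ER, av_const_mul]
    rw [← hU]
    linarith
  have e6 : ∀ n, lo n * BB m (om P' 0 n) - up n * RR m (om P' 0 n) - (lo n * EB - up n * ER) =
      lo n * (BB m (om P' 0 n) - EB) - up n * (RR m (om P' 0 n) - ER) := fun n => by ring
  simp only [e6] at hdisc
  refine le_trans ?_ (hdisc.trans (add_le_add (mul_le_mul_of_nonneg_left hmom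
    (Nat.cast_nonneg x)) le_rfl))
  rw [← nsmul_eq_mul, ← sum_const]
  refine le_trans (sum_le_sum fun n hn => ?_) (sum_le_sum_of_subset_of_nonneg (filter_subset _ _)
    fun n _ _ => hq.pow_nonneg _)
  have h1 := (mem_filter.1 hn).2
  have h2 := (abs_le.1 (mA.window (fun p hp => (PP_prime hp).pos) (n + X) t)).1
  have h3 := sum_le_sum fun b (_ : b ∈ range t) => h'.lo_le (n + X + b)
  have h4 := mul_le_mul_of_nonneg_left e5 (Nat.cast_nonneg (α := ℝ) t)
  rw [hU] at h3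
  rw [← hq.neg_pow, ← hq.neg_pow (∑ b ∈ range t, _), hq.neg_pow γ]
  refine pow_le_pow_left₀ hγ.le ?_ _
  simp only [← e6]
  rw [sum_sub_distrib]
  linarith

end Pool.Agent.MP_d228e7_nt
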