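import Pool.Agent.MP_d228e7_nt.Scale
import Pool.Prelude.Def_F_8adaa765

/-!
Summation over the scales.
-/

set_option autoImplicit false

open Finset

noncomputable section

namespace Pool.Agent.MP_d228e7_nt

open Pool.Agent.MP_cebb75_nt Pool.Agent.MP_fdd1d3_nt N435e839e

theorem gp_le (n t : ℕ) : ∀ b ∈ greedyPrefix true n t, b ≤ t := by
  induction t with
  | zero => simp [greedyPrefix]
  | succ t ih =>
    intro b hb
    rw [greedyPrefix] at hb
    split_ifs at hb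
    · rcases mem_insert.1 hb with rfl | h
      · rfl
      · exact (ih b h).trans (Nat.le_succ t)
    · exact (ih b hb).trans (Nat.le_succ t)

theorem gp_mono (n : ℕ) {t t' : ℕ} (h : t ≤ t') :
    greedyPrefix true n t ⊆ greedyPrefix true n t' := by
  induction h with
  | refl => exact Subset.rfl
  | step _ ih =>
    refine ih.trans ?_
    rw [greedyPrefix]
    split_ifs
    · exact subset_insert _ _
    · exact Subset.rfl

theorem mem_sel {n a : ℕ} (h0 : 0 < a) (h1 : a < n) (h : ∀ p, p.Prime → p ≤ a → ¬ p ∣ n - a) :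
    a ∈ selected true n := by
  refine mem_filter.2 ⟨gp_mono n (show a ≤ n - 1 by omega) ?_, h0, h1⟩
  obtain ⟨t, rfl⟩ : ∃ t, a = t + 1 := ⟨a - 1, by omega⟩
  rw [greedyPrefix, if_pos (Or.inr fun b hb => ?_)]
  · exact mem_insert_self _ _
  · have h2 := gp_le n t b hb
    refine Nat.coprime_of_dvd fun p hp h3 h4 => h p hp ?_ h3
    have h5 := Nat.dvd_sub h4 h3
    exact (Nat.le_of_dvd (by omega) h5).trans (by omega)

/-- the term of the sum at `a` -/
def hh (n a : ℕ) : ℝ := if a ∈ selected true n then 1 / (a : ℝ) else 0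

theorem hh_nonneg (n a : ℕ) : 0 ≤ hh n a := by
  unfold hh
  split_ifs <;> positivity

theorem scale_sum {n j : ℕ} (h : 2 * 2 ^ j < n) :
    NN j (n - 2 * 2 ^ j) / (2 * 2 ^ j) ≤ ∑ a ∈ Ioc (2 ^ j) (2 * 2 ^ j), hh n a := by
  have h1 : ∑ a ∈ Ioc (2 ^ j) (2 * 2 ^ j), hh n a = ∑ b ∈ range (2 ^ j), hh n (2 * 2 ^ j - b) := by
    refine sum_nbij' (fun a => 2 * 2 ^ j - a) (fun a => 2 * 2 ^ j - a) ?_ ?_ ?_ ?_ ?_ <;>
      intro a ha <;> simp only [mem_Ioc, mem_range] at ha ⊢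
    iterate 4 omega
    congr 1
    omega
  rw [h1, NN, sum_div]
  refine sum_le_sum fun b hb => ?_
  have h2 := mem_range.1 hb
  unfold pt
  split_ifs with h3
  · rw [hh, if_pos (mem_sel (by omega) (by omega) fun p hp h4 h5 => ?_)]
    · refine one_div_le_one_div_of_le (by exact_mod_cast (by omega : 0 < 2 * 2 ^ j - b)) ?_
      exact_mod_cast Nat.sub_le _ _
    · rw [om, card_eq_zero, filter_eq_empty_iff] at h3
      refine h3 ((mem_PP 0 _ p).2 ⟨⟨hp.pos, by omega⟩, hp⟩) (Nat.mod_eq_zero_of_dvd ?_)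
      rwa [show n - 2 * 2 ^ j + b = n - (2 * 2 ^ j - b) by omega]
  · rw [zero_div]
    exact hh_nonneg _ _

theorem total_ge (n B : ℕ) (J : Finset ℕ) (hJ : J ⊆ range B) :
    ∑ j ∈ J, ∑ a ∈ Ioc (2 ^ j) (2 * 2 ^ j), hh n a ≤ totalSum true n := by
  have h1 : ∑ j ∈ range B, ∑ a ∈ Ioc (2 ^ j) (2 * 2 ^ j), hh n a = ∑ a ∈ Ioc 1 (2 ^ B), hh n a := by
    clear hJ
    induction B with
    | zero => simp
    | succ B ih =>
      rw [sum_range_succ, ih, sum_Ioc_consecutive _ Nat.one_le_two_pow (by omega), pow_succ']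
  refine (sum_le_sum_of_subset_of_nonneg hJ fun j _ _ =>
    sum_nonneg fun a _ => hh_nonneg n a).trans ?_
  rw [h1]
  simp only [hh, sum_ite_mem]
  exact sum_le_sum_of_subset_of_nonneg inter_subset_right fun a _ _ => by positivity

theorem harm_sum (A B : ℕ) (h : A ≤ B) :
    Real.log (B + 1) - (1 + Real.log A) ≤ ∑ j ∈ Ioc A B, 1 / (j : ℝ) := by
  have h1 := sum_Ioc_consecutive (fun j : ℕ => 1 / (j : ℝ)) (Nat.zero_le A) h
  have h2 := harm_le A
  have h3 := harm_ge B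
  rw [show ∀ m, Icc 1 m = Ioc 0 m from fun m => Icc_add_one_left_eq_Ioc 0 m] at h2 h3
  linarith

theorem one_scale {s j y : ℕ} (hs : 5000000 ≤ s) (hg : (s + 1) ^ 4 ≤ 2 ^ (s / 70))
    (hy : 2 ^ s ^ 4 ≤ y) (hj : j ∈ Ioc (s ^ 3) (s ^ 4 / 800)) (X : ℕ) :
    (((Ioc X (X + y)).filter fun n => 2 * 2 ^ j < n ∧
      NN j (n - 2 * 2 ^ j) < 2 ^ j / (480 * j)).card : ℝ) ≤ 2 * (y / 2 ^ (s ^ 4 / 819200)) := by
  obtain ⟨h1, h2⟩ := mem_Ioc.1 hj
  have h3 : 800 * j ≤ s ^ 4 := by omega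
  have hs3 : 1024 * s ≤ s ^ 3 := by nlinarith [Nat.mul_le_mul hs hs]
  have h4 : 1 ≤ s ^ 4 / (800 * j) := (Nat.le_div_iff_mul_le (by omega)).2 (by omega)
  have h5 := Nat.div_mul_le_self (s ^ 4) (800 * j)
  have h6 := Nat.lt_mul_div_succ (s ^ 4) (show 0 < 800 * j by omega)
  obtain ⟨A, hA⟩ : ∃ A, s ^ 4 / (800 * j) = A + 1 := ⟨_, (Nat.sub_add_cancel h4).symm⟩
  rw [hA] at h5 h6
  have h7 : 2 * A + 2 ≤ s := by
    by_contra h
    have : s * s ^ 3 ≤ (2 * A + 2) * j := Nat.mul_le_mul (by omega) h1.le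
    nlinarith
  have h8 : s ^ 4 + 1 < (s + 1) ^ 4 := by nlinarith [pow_pos (show 0 < s by omega) 2]
  obtain ⟨g, hgd⟩ : ∃ g, g = s / 70 := ⟨_, rfl⟩
  have h9 : 70 * g ≤ s := by omega
  have h10 : 1 ≤ g := by omega
  have h11 : (70 * g) ^ 3 ≤ s ^ 3 := Nat.pow_le_pow_left h9 3
  have h12 : g * (g * (2 * (13 + g) + 1) + (2 * 97 + 1)) + 13 * g + 60 ≤ 297 * g ^ 3 := by
    nlinarith [Nat.mul_le_mul h10 h10, Nat.mul_le_mul h10 (Nat.mul_le_mul h10 h10),
      Nat.mul_le_mul_left (g * g) h10, Nat.mul_le_mul_left g h10]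
  have hs4 : 2000 * s ≤ s ^ 3 := by nlinarith [Nat.mul_le_mul hs hs]
  have key := scale (j := j) (g := g) (e := j / 512) (r := 2 * A) ⟨A + 1, by ring⟩ (by omega)
    (by omega) (by omega) (by rw [hgd]; omega) (by rw [hgd]; nlinarith)
    (by rw [mul_pow] at h11; omega) y (X + 1 - 2 * 2 ^ j)
  have e1 : s ^ 4 / 819200 ≤ j / 512 * (2 * A + 2) := by
    refine Nat.div_le_of_le_mul ?_
    have : j ≤ 1024 * (j / 512) := by omega
    nlinarith [Nat.mul_le_mul_right (2 * A + 2) this]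
  have e2 : 200 * j * (2 * A + 2) + s ^ 4 / 819200 ≤ s ^ 4 := by
    have : 200 * j * (2 * A + 2) * 2 = (A + 1) * (800 * j) := by ring
    omega
  have e3 : (2 : ℝ) ^ (200 * j * (2 * A + 2)) ≤ y / 2 ^ (s ^ 4 / 819200) := by
    rw [le_div_iff₀ (by positivity), ← pow_add]
    exact (two_le e2).trans (by exact_mod_cast hy)
  have e4 : (y : ℝ) / 2 ^ (j / 512 * (2 * A + 2)) ≤ y / 2 ^ (s ^ 4 / 819200) :=
    div_le_div_of_nonneg_left (by positivity) (by positivity) (two_le e1)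
  refine le_trans ?_ (key.trans (by linarith))
  refine Nat.cast_le.2 (card_le_card_of_injOn (fun n => n - 2 * 2 ^ j - (X + 1 - 2 * 2 ^ j))
    (fun n hn => ?_) fun m hm n hn h => ?_)
  · simp only [coe_filter, mem_Ioc, Set.mem_ofPred_eq, mem_range] at hn ⊢
    refine ⟨by omega, ?_⟩
    rw [Nat.sub_add_cancel (by omega)]
    exact hn.2.2
  · simp only [coe_filter, mem_Ioc, Set.mem_ofPred_eq] at hm hn h
    omega

theorem all_scales {s y : ℕ} (hs : 5000000 ≤ s) (hg : (s + 1) ^ 4 ≤ 2 ^ (s / 70))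
    (hy : 2 ^ s ^ 4 ≤ y) (X : ℕ) :
    (((Ioc X (X + y)).filter fun n => totalSum true n < Real.log s / 1920).card : ℝ) ≤
      s ^ 4 * (y / 2 ^ (s ^ 4 / 819200)) := by
  set J := Ioc (s ^ 3) (s ^ 4 / 800) with hJ
  have hs0 : (0 : ℝ) < s := by exact_mod_cast (by omega : 0 < s)
  have h0 : s ^ 4 = s * s ^ 3 := by ring
  have h00 : s ≤ s ^ 3 := Nat.le_self_pow (by norm_num) s
  have h01 := Nat.mul_le_mul_right (s ^ 3) hs
  have h1 : (Ioc X (X + y)).filter (fun n => totalSum true n < Real.log s / 1920) ⊆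
      range (2 * 2 ^ (s ^ 4 / 800) + 1) ∪ J.biUnion fun j => (Ioc X (X + y)).filter fun n =>
        2 * 2 ^ j < n ∧ NN j (n - 2 * 2 ^ j) < 2 ^ j / (480 * j) := by
    intro n hn
    obtain ⟨h2, h3⟩ := mem_filter.1 hn
    by_contra hc
    simp only [mem_union, mem_range, mem_biUnion, mem_filter, not_or, not_exists, not_and,
      not_lt] at hc
    have h4 : ∀ j ∈ J, 1 / 960 * (1 / (j : ℝ)) ≤ ∑ a ∈ Ioc (2 ^ j) (2 * 2 ^ j), hh n a := by
      intro j hj
      have h5 : 2 ^ j ≤ 2 ^ (s ^ 4 / 800) := Nat.pow_le_pow_right two_pos (mem_Ioc.1 hj).2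
      have h6 : 2 * 2 ^ j < n := by omega
      refine le_trans ?_ (scale_sum h6)
      refine le_trans (le_of_eq ?_) (div_le_div_of_nonneg_right (hc.2 j hj h2 h6) (by positivity))
      field_simp
      norm_num
    have h5 := (sum_le_sum h4).trans (total_ge n (s ^ 4 / 800 + 1) J fun j hj =>
      mem_range.2 (Nat.lt_succ_of_le (mem_Ioc.1 hj).2))
    have h6 := harm_sum (s ^ 3) (s ^ 4 / 800) (by omega)
    have h7 : Real.log ((s : ℝ) ^ 4 / 800) ≤ Real.log ((s ^ 4 / 800 : ℕ) + 1) := by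
      refine Real.log_le_log (by positivity) ?_
      rw [div_le_iff₀ (by norm_num)]
      exact_mod_cast (by omega : s ^ 4 ≤ (s ^ 4 / 800 + 1) * 800)
    have h8 : Real.log ((800 * Real.exp 1) ^ 2) ≤ Real.log s := by
      refine Real.log_le_log (by positivity) (le_trans ?_ (show (5000000 : ℝ) ≤ s by exact_mod_cast hs))
      nlinarith [Real.exp_one_lt_d9, Real.exp_pos 1]
    rw [Real.log_pow, Real.log_mul (by norm_num) (by positivity), Real.log_exp] at h8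
    rw [Real.log_div (by positivity) (by norm_num), Real.log_pow] at h7
    rw [← mul_sum] at h5
    rw [Nat.cast_pow, Real.log_pow] at h6
    push_cast at h6 h7 h8
    linarith
  have h2 : (((Ioc X (X + y)).filter fun n => totalSum true n < Real.log s / 1920).card : ℝ) ≤
      ((2 * 2 ^ (s ^ 4 / 800) + 1 : ℕ) : ℝ) + ∑ j ∈ J, (((Ioc X (X + y)).filter fun n =>
        2 * 2 ^ j < n ∧ NN j (n - 2 * 2 ^ j) < 2 ^ j / (480 * j)).card : ℝ) := by
    have := (card_le_card h1).trans ((card_union_le _ _).trans (add_le_add le_rfl card_biUnion_le))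
    rw [card_range] at this
    exact_mod_cast this
  have h3 := sum_le_card_nsmul J _ _ fun j hj => one_scale hs hg hy hj X
  have h4 : ((2 * 2 ^ (s ^ 4 / 800) + 1 : ℕ) : ℝ) ≤ y / 2 ^ (s ^ 4 / 819200) := by
    rw [le_div_iff₀ (by positivity)]
    have h5 : 2 * 2 ^ (s ^ 4 / 800) + 1 ≤ 2 ^ (s ^ 4 / 800 + 2) := by
      have := Nat.one_le_two_pow (n := s ^ 4 / 800)
      rw [pow_add]
      omega
    have h6 := (Nat.mul_le_mul_right (2 ^ (s ^ 4 / 819200)) h5).trans (show _ ≤ y by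
      rw [← pow_add]
      exact (Nat.pow_le_pow_right two_pos (by omega)).trans hy)
    exact_mod_cast h6
  have h5 : 1 + (J.card : ℝ) * 2 ≤ s ^ 4 := by
    rw [hJ, Nat.card_Ioc]
    exact_mod_cast (by omega : 1 + (s ^ 4 / 800 - s ^ 3) * 2 ≤ s ^ 4)
  have h6 := mul_le_mul_of_nonneg_right h5 (show (0 : ℝ) ≤ y / 2 ^ (s ^ 4 / 819200) by positivity)
  rw [nsmul_eq_mul] at h3
  linarith

theorem exists_s : ∃ s₀ : ℕ, ∀ s, s₀ ≤ s → (s + 1) ^ 4 ≤ 2 ^ (s / 70) := by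
  obtain ⟨k, hk⟩ := Filter.eventually_atTop.1 ((tendsto_pow_const_div_const_pow_of_one_lt 4
    (one_lt_two (α := ℝ))).eventually (gt_mem_nhds (show (0 : ℝ) < 1 / 140 ^ 4 by positivity)))
  refine ⟨70 * (k + 1), fun s hs => ?_⟩
  have h1 := hk (s / 70) (by omega)
  rw [div_lt_div_iff₀ (by positivity) (by positivity), one_mul, ← mul_pow] at h1
  have h2 : (s / 70 * 140) ^ 4 < 2 ^ (s / 70) := by exact_mod_cast h1
  exact (Nat.pow_le_pow_left (by omega) 4).trans h2.le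

theorem main : ∃ y₀ : ℕ, ∀ X y : ℕ, y₀ ≤ y →
    (((Ioc X (X + y)).filter fun n =>
      totalSum true n < 1 / 9600 * Real.log (Real.log y)).card : ℝ) ≤
        (y : ℝ) ^ (1 - 1 / 26214400 : ℝ) := by
  obtain ⟨s₀, h0⟩ := exists_s
  refine ⟨2 ^ (s₀ + 5000000) ^ 4, fun X y hy => ?_⟩
  have hy0 : 0 < y := lt_of_lt_of_le (by positivity) hy
  obtain ⟨s, hs⟩ : ∃ s, s = Nat.sqrt (Nat.sqrt (Nat.log 2 y)) := ⟨_, rfl⟩
  have h1 : s ^ 4 ≤ Nat.log 2 y := by
    have := (Nat.pow_le_pow_left (Nat.sqrt_le' (Nat.sqrt (Nat.log 2 y))) 2).trans (Nat.sqrt_le' _)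
    rwa [← pow_mul, ← hs] at this
  have h2 : Nat.log 2 y < (s + 1) ^ 4 := by
    rw [show 4 = 2 * 2 from rfl, pow_mul, ← Nat.sqrt_lt', ← Nat.sqrt_lt', hs]
    exact Nat.lt_succ_self _
  have h3 : s₀ + 5000000 ≤ s :=
    Nat.lt_succ_iff.1 (lt_of_pow_lt_pow_left₀ 4 (Nat.zero_le _)
      ((Nat.le_log_of_pow_le one_lt_two hy).trans_lt h2))
  have h4 : 2 ^ s ^ 4 ≤ y := (Nat.pow_le_pow_right two_pos h1).trans (Nat.pow_log_le_self 2 hy0.ne')
  have h5 : y ≤ 2 ^ (16 * s ^ 4) := by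
    refine (Nat.lt_pow_succ_log_self one_lt_two y).le.trans (Nat.pow_le_pow_right two_pos ?_)
    have : (s + 1) ^ 4 ≤ (2 * s) ^ 4 := Nat.pow_le_pow_left (by omega) 4
    rw [mul_pow] at this
    omega
  have hg := h0 s (by omega)
  have hyR : (0 : ℝ) < y := by exact_mod_cast hy0
  have hsR : (5000000 : ℝ) ≤ s := by exact_mod_cast (by omega : 5000000 ≤ s)
  have h6 : Real.log y ≤ 16 * s ^ 4 * Real.log 2 := by
    have := Real.log_le_log hyR (show (y : ℝ) ≤ 2 ^ (16 * s ^ 4) by exact_mod_cast h5)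
    rw [Real.log_pow] at this
    exact_mod_cast this
  have h7 : Real.log (Real.log y) ≤ 5 * Real.log s := by
    have e1 : 0 < Real.log y := Real.log_pos (by
      exact_mod_cast (Nat.one_lt_two_pow (by positivity)).trans_le hy)
    have e2 : Real.log y ≤ s ^ 5 := by
      have e3 : 16 * Real.log 2 ≤ s := by linarith [Real.log_two_lt_d9]
      nlinarith [mul_le_mul_of_nonneg_left e3 (show (0 : ℝ) ≤ s ^ 4 by positivity)]
    simpa using Real.log_le_log e1 e2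
  refine le_trans (Nat.cast_le.2 (card_le_card (monotone_filter_right _ fun n _ hn => ?_)))
    ((all_scales (by omega) hg h4 X).trans ?_)
  · linarith
  rw [Real.rpow_sub hyR, Real.rpow_one, ← mul_div_assoc, div_le_div_iff₀ (by positivity)
    (by positivity), mul_right_comm, mul_comm (y : ℝ)]
  refine mul_le_mul_of_nonneg_right ?_ hyR.le
  have e1 : (s : ℝ) ^ 4 ≤ 2 ^ s := by
    exact_mod_cast (Nat.pow_le_pow_left (Nat.le_succ s) 4).trans
      (hg.trans (Nat.pow_le_pow_right two_pos (Nat.div_le_self _ _)))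
  have e2 : (y : ℝ) ^ (1 / 26214400 : ℝ) ≤ 2 ^ (s ^ 4 / 1638400 + 1) := by
    rw [← Real.rpow_natCast 2, Real.rpow_def_of_pos hyR, Real.rpow_def_of_pos two_pos]
    refine Real.exp_le_exp.2 ?_
    have e3 : (s : ℝ) ^ 4 ≤ ((s ^ 4 / 1638400 + 1 : ℕ) : ℝ) * 1638400 := by
      exact_mod_cast (by omega : s ^ 4 ≤ (s ^ 4 / 1638400 + 1) * 1638400)
    nlinarith [mul_le_mul_of_nonneg_left e3 (Real.log_pos one_lt_two).le]
  refine (mul_le_mul e1 e2 (by positivity) (by positivity)).trans ?_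
  rw [← pow_add]
  refine two_le ?_
  have e4 : 5000000 * s ≤ s ^ 4 := by
    have e5 : 5000000 ≤ s := by omega
    have := Nat.mul_le_mul_left s (e5.trans (Nat.le_self_pow (n := 3) (by norm_num) s))
    nlinarith
  omega

end Pool.Agent.MP_d228e7_nt
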