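import Pool.Agent.MP_d228e7_nt.Sieve

/-!
Moments of window sums, revealing one prime at a time.
-/

set_option autoImplicit false

open Finset

noncomputable section

namespace Pool.Agent.MP_d228e7_nt

open Pool.Agent.MP_cebb75_nt

theorem mix_le {u v : ℝ} (hu : 0 ≤ u) (hv : 0 ≤ v) {k q : ℕ} (h : k ≤ q) :
    u ^ k * v ^ (q - k) ≤ u ^ q + v ^ q := by
  rcases le_total u v with h1 | h1
  · calc u ^ k * v ^ (q - k) ≤ v ^ k * v ^ (q - k) := by gcongr
      _ = v ^ q := by rw [← pow_add, Nat.add_sub_cancel' h]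
      _ ≤ _ := le_add_of_nonneg_left (by positivity)
  · calc u ^ k * v ^ (q - k) ≤ u ^ k * u ^ (q - k) := by gcongr
      _ = u ^ q := by rw [← pow_add, Nat.add_sub_cancel' h]
      _ ≤ _ := le_add_of_nonneg_right (by positivity)

theorem pow_step {r : ℕ} (hq : Even (r + 2)) (X Y : ℝ) {ρ : ℝ} (h0 : 0 < ρ) (h1 : ρ ≤ 1) :
    (X + Y) ^ (r + 2) ≤ X ^ (r + 2) + (r + 2) * X ^ (r + 1) * Y +
      2 ^ (r + 2) * ρ ^ 2 * (X ^ (r + 2) + (Y / ρ) ^ (r + 2)) := by
  have hA : 0 ≤ ρ ^ 2 * (X ^ (r + 2) + (Y / ρ) ^ (r + 2)) :=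
    mul_nonneg (by positivity) (add_nonneg (hq.pow_nonneg _) (hq.pow_nonneg _))
  have h2 : ∑ i ∈ range (r + 1), Y ^ (i + 1 + 1) * X ^ (r + 2 - (i + 1 + 1)) *
      ((r + 2).choose (i + 1 + 1) : ℝ) ≤ ∑ i ∈ range (r + 1),
      ρ ^ 2 * (X ^ (r + 2) + (Y / ρ) ^ (r + 2)) * ((r + 2).choose (i + 1 + 1) : ℝ) := by
    refine sum_le_sum fun i hi => mul_le_mul_of_nonneg_right ?_ (by positivity)
    have h3 := mix_le (abs_nonneg (Y / ρ)) (abs_nonneg X)
      (show i + 1 + 1 ≤ r + 2 by have := mem_range.1 hi; omega)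
    rw [hq.pow_abs, hq.pow_abs] at h3
    have h4 : |Y| = ρ * |Y / ρ| := by
      rw [abs_div, abs_of_pos h0]
      field_simp
    have h5 : ρ ^ (i + 1 + 1) ≤ ρ ^ 2 := pow_le_pow_of_le_one h0.le h1 (by omega)
    refine (le_abs_self _).trans ?_
    rw [abs_mul, abs_pow, abs_pow, h4, mul_pow, mul_assoc, add_comm (X ^ (r + 2))]
    exact mul_le_mul h5 h3 (by positivity) (by positivity)
  have h3 : ∑ i ∈ range (r + 1), ((r + 2).choose (i + 1 + 1) : ℝ) ≤ 2 ^ (r + 2) := by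
    have h4 := Nat.sum_range_choose (r + 2)
    rw [sum_range_succ', sum_range_succ'] at h4
    exact_mod_cast (by omega : ∑ i ∈ range (r + 1), (r + 2).choose (i + 1 + 1) ≤ 2 ^ (r + 2))
  rw [← mul_sum] at h2
  have h4 := mul_le_mul_of_nonneg_left h3 hA
  rw [add_comm X Y, add_pow, sum_range_succ', sum_range_succ']
  simp only [zero_add, pow_one, pow_zero, Nat.choose_one_right, Nat.choose_zero_right,
    Nat.cast_one, one_mul, mul_one, Nat.sub_zero, show r + 2 - 1 = r + 1 from rfl]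
  push_cast at h2 ⊢
  linarith

theorem hold {ι : Type} (s : Finset ι) (w z : ι → ℝ) (hw : ∀ i ∈ s, 0 ≤ w i)
    (hz : ∀ i ∈ s, 0 ≤ z i) {B : ℝ} (hB : ∑ i ∈ s, w i ≤ B) (r : ℕ) :
    (∑ i ∈ s, w i * z i) ^ (r + 1) ≤ B ^ r * ∑ i ∈ s, w i * z i ^ (r + 1) := by
  have hW := sum_nonneg hw
  have hS : 0 ≤ ∑ i ∈ s, w i * z i ^ (r + 1) :=
    sum_nonneg fun i hi => mul_nonneg (hw i hi) (pow_nonneg (hz i hi) _)
  rcases hW.eq_or_lt with h0 | h0
  · have h1 := (sum_eq_zero_iff_of_nonneg hw).1 h0.symm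
    rw [sum_eq_zero fun i hi => by rw [h1 i hi, zero_mul], zero_pow (by omega)]
    exact mul_nonneg (pow_nonneg (hW.trans hB) _) hS
  · set W := ∑ i ∈ s, w i with hWd
    have h1 := Real.pow_arith_mean_le_arith_mean_pow s (fun i => w i / W) z
      (fun i hi => div_nonneg (hw i hi) hW) (by rw [← sum_div, div_self h0.ne']) hz (r + 1)
    simp only [div_mul_eq_mul_div, ← sum_div] at h1
    rw [div_pow, div_le_div_iff₀ (by positivity) h0, pow_succ W, ← mul_assoc] at h1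
    refine (le_of_mul_le_mul_right h1 h0).trans ?_
    rw [mul_comm]
    exact mul_le_mul_of_nonneg_right (pow_le_pow_left₀ hW hB _) hS

/-- the centred indicator of divisibility -/
def chi (p n : ℕ) : ℝ := (if n % p = 0 then 1 else 0) - 1 / p

theorem chi_per (p : ℕ) : Per p (chi p) := fun m n h => by
  simp only [chi, show m % p = n % p from h]

theorem chi_sum {p : ℕ} (hp : 0 < p) (b : ℕ) : ∑ c ∈ range p, chi p (c + b) = 0 := by
  have h := av_shift (chi_per p) b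
  have hp' : (p : ℝ) ≠ 0 := by exact_mod_cast hp.ne'
  rw [av, av, div_left_inj' hp'] at h
  rw [h]
  obtain ⟨k, rfl⟩ : ∃ k, p = k + 1 := ⟨p - 1, by omega⟩
  simp only [chi, sum_sub_distrib, sum_const, card_range, nsmul_eq_mul]
  rw [sum_range_succ', sum_eq_zero fun i hi => if_neg (by
    rw [Nat.mod_eq_of_lt (by have := mem_range.1 hi; omega)]; omega)]
  rw [mul_one_div_cancel hp']
  simp

theorem chi_abs {p t : ℕ} (hp : 0 < p) (ht : p ≤ 2 * t) (c : ℕ) :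
    ∑ b ∈ range t, |chi p (c + b)| ≤ 4 * t / p := by
  have hp' : (0 : ℝ) < p := by exact_mod_cast hp
  have h1 : ∀ b ∈ range t, |chi p (c + b)| ≤ ind p ((p - 1) * c) b + 1 / p := by
    intro b _
    refine (abs_sub _ _).trans (add_le_add ?_ (le_of_eq (abs_of_nonneg (by positivity))))
    unfold ind
    by_cases h : (c + b) % p = 0
    · obtain ⟨k, rfl⟩ : ∃ k, p = k + 1 := ⟨p - 1, by omega⟩
      have h3 : c + (k + 1 - 1) * c ≡ 0 [MOD k + 1] := by
        rw [Nat.add_sub_cancel, add_comm c, ← Nat.succ_mul]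
        exact (Nat.modEq_zero_iff_dvd).2 (dvd_mul_right _ _)
      have h4 : c + b ≡ 0 [MOD k + 1] := h
      rw [if_pos h, if_pos (Nat.ModEq.add_left_cancel' c (h4.trans h3.symm)), abs_one]
    · rw [if_neg h, abs_zero]
      split_ifs <;> norm_num
  refine (sum_le_sum h1).trans ?_
  rw [sum_add_distrib, sum_ind _ _ _ hp, sum_const, card_range, nsmul_eq_mul]
  have h2 : ((t / p : ℕ) : ℝ) ≤ t / p := Nat.cast_div_le
  have h3 : (1 : ℝ) ≤ 2 * (t / p) := by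
    rw [← mul_div_assoc, one_le_div hp']
    exact_mod_cast ht
  rw [mul_one_div, mul_div_assoc]
  split_ifs <;> linarith

theorem av_sum {ι : Type} (N : ℕ) (s : Finset ι) (f : ι → ℕ → ℝ) :
    av N (fun n => ∑ i ∈ s, f i n) = ∑ i ∈ s, av N (f i) := by
  simp only [av, ← sum_div]
  rw [sum_comm]

theorem inc_le {N p t r : ℕ} (hq : Even (r + 2)) (hp : 0 < p) (ht : p ≤ 2 * t) {D : ℕ → ℝ}
    (hD : Per N D) {Λ : ℝ} (hΛ : av N (fun n => D n ^ (r + 2)) ≤ Λ ^ (r + 2)) (c : ℕ) :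
    av N (fun m => (∑ b ∈ range t, D (m + b) * chi p (c + b)) ^ (r + 2)) ≤
      (4 * t / p * Λ) ^ (r + 2) := by
  have h1 : ∀ m, (∑ b ∈ range t, D (m + b) * chi p (c + b)) ^ (r + 2) ≤
      (4 * t / p) ^ (r + 1) * ∑ b ∈ range t, |chi p (c + b)| * D (m + b) ^ (r + 2) := by
    intro m
    have h2 := hold (range t) (fun b => |chi p (c + b)|) (fun b => |D (m + b)|)
      (fun _ _ => abs_nonneg _) (fun _ _ => abs_nonneg _) (chi_abs hp ht c) (r + 1)
    simp only [hq.pow_abs] at h2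
    refine le_trans ?_ h2
    rw [← hq.pow_abs]
    refine pow_le_pow_left₀ (abs_nonneg _) ((abs_sum_le_sum_abs _ _).trans (le_of_eq ?_)) _
    exact sum_congr rfl fun b _ => by rw [abs_mul, mul_comm]
  refine (av_mono h1).trans ?_
  rw [av_const_mul, av_sum, mul_pow, pow_succ (4 * t / p : ℝ) (r + 1), mul_assoc]
  refine mul_le_mul_of_nonneg_left ?_ (by positivity)
  have h3 : Per N fun n => D n ^ (r + 2) := fun x y h => by simp only [hD x y h]
  calc _ ≤ ∑ b ∈ range t, |chi p (c + b)| * Λ ^ (r + 2) := sum_le_sum fun b _ => by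
        rw [av_const_mul, av_shift h3]
        exact mul_le_mul_of_nonneg_left hΛ (abs_nonneg _)
    _ ≤ _ := by
        rw [← sum_mul]
        exact mul_le_mul_of_nonneg_right (chi_abs hp ht c) (hq.pow_nonneg _)

theorem mart_step {N p t r : ℕ} (hq : Even (r + 2)) (co : p.Coprime N) (hN : 0 < N) (hp : 0 < p)
    (ht : p ≤ 2 * t) {G D : ℕ → ℝ} (hG : Per N G) (hD : Per N D) {Λ ρ R : ℝ}
    (hΛ : av N (fun n => D n ^ (r + 2)) ≤ Λ ^ (r + 2)) (h0 : 0 < ρ) (h1 : ρ ≤ 1)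
    (hR : 4 * t / p * Λ = ρ * R) :
    av (p * N) (fun n => (∑ b ∈ range t, (G (n + b) + D (n + b) * chi p (n + b))) ^ (r + 2)) +
      R ^ (r + 2) ≤ (1 + 2 ^ (r + 2) * ρ ^ 2) *
        (av N (fun n => (∑ b ∈ range t, G (n + b)) ^ (r + 2)) + R ^ (r + 2)) := by
  set X : ℕ → ℝ := fun m => ∑ b ∈ range t, G (m + b) with hX
  set Y : ℕ → ℕ → ℝ := fun c m => ∑ b ∈ range t, D (m + b) * chi p (c + b) with hY
  have hp' : (0 : ℝ) < p := by exact_mod_cast hp
  have e1 : av (p * N) (fun n => (∑ b ∈ range t, (G (n + b) + D (n + b) * chi p (n + b))) ^ (r + 2))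
      = (∑ c ∈ range p, av N fun m => (X m + Y c m) ^ (r + 2)) / p := by
    simp only [av, ← sum_div]
    rw [← sum_crt co hp hN fun c m => (X m + Y c m) ^ (r + 2), div_div, Nat.cast_mul, mul_comm (p : ℝ)]
    congr 1
    refine sum_congr rfl fun n _ => ?_
    simp only [hX, hY, sum_add_distrib, (hG.shift _).mod n, (hD.shift _).mod n,
      ((chi_per p).shift _).mod n]
  have e2 : ∑ c ∈ range p, av N (fun m => (r + 2) * X m ^ (r + 1) * Y c m) = 0 := by
    rw [← av_sum]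
    simp only [← mul_sum, hY]
    have : ∀ m, ∑ c ∈ range p, ∑ b ∈ range t, D (m + b) * chi p (c + b) = 0 := fun m => by
      rw [sum_comm]
      exact sum_eq_zero fun b _ => by rw [← mul_sum, chi_sum hp, mul_zero]
    simp [this, av]
  have e3 : ∀ c, av N (fun m => (Y c m / ρ) ^ (r + 2)) ≤ R ^ (r + 2) := by
    intro c
    have h2 := inc_le hq hp ht hD hΛ c
    simp only [div_pow, div_eq_inv_mul _ (ρ ^ (r + 2))]
    rw [av_const_mul, inv_mul_le_iff₀ (by positivity), ← mul_pow, ← hR]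
    exact h2
  have e4 : ∀ c ∈ range p, av N (fun m => (X m + Y c m) ^ (r + 2)) ≤
      av N (fun m => (r + 2) * X m ^ (r + 1) * Y c m) + (av N (fun m => X m ^ (r + 2)) +
        2 ^ (r + 2) * ρ ^ 2 * (av N (fun m => X m ^ (r + 2)) + R ^ (r + 2))) := by
    intro c _
    refine (av_mono fun m => pow_step hq (X m) (Y c m) h0 h1).trans ?_
    have h2 := mul_le_mul_of_nonneg_left (e3 c) (show 0 ≤ 2 ^ (r + 2) * ρ ^ 2 by positivity)
    simp only [av, sum_add_distrib, ← mul_sum, add_div, mul_div_assoc, mul_add] at h2 ⊢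
    linarith
  have e5 := sum_le_sum e4
  rw [sum_add_distrib, e2, zero_add, sum_const, card_range, nsmul_eq_mul, ← div_le_iff₀' hp'] at e5
  rw [e1]
  linarith

theorem mart {P P' : Finset ℕ} (hP : ∀ p ∈ P, p.Prime) (hP' : ∀ p ∈ P', p.Prime)
    (hd : Disjoint P P') {t r : ℕ} (hq : Even (r + 2)) (ht : ∀ p ∈ P', p ≤ 2 * t)
    (G : Finset ℕ → ℕ → ℝ) (D : Finset ℕ → ℕ → ℕ → ℝ) {Λ R : ℝ} (ρ : ℕ → ℝ)
    (hρ : ∀ p ∈ P', 0 < ρ p ∧ ρ p ≤ 1 ∧ 4 * t / p * Λ = ρ p * R) (hG0 : ∀ n, G ∅ n = 0)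
    (hG : ∀ Q ⊆ P', Per (∏ p ∈ P ∪ Q, p) (G Q))
    (hD : ∀ Q ⊆ P', ∀ p ∈ P', p ∉ Q → Per (∏ p ∈ P ∪ Q, p) (D Q p) ∧
      av (∏ p ∈ P ∪ Q, p) (fun n => D Q p n ^ (r + 2)) ≤ Λ ^ (r + 2) ∧
      ∀ n, G (insert p Q) n = G Q n + D Q p n * chi p n) :
    ∀ Q ⊆ P', av (∏ p ∈ P ∪ Q, p) (fun n => (∑ b ∈ range t, G Q (n + b)) ^ (r + 2)) +
      R ^ (r + 2) ≤ (∏ p ∈ Q, (1 + 2 ^ (r + 2) * ρ p ^ 2)) * R ^ (r + 2) := by
  intro Q
  induction Q using Finset.induction_on with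
  | empty => simp [hG0, av]
  | insert p Q hp ih =>
    intro hQ
    have hp' := hQ (mem_insert_self _ _)
    have hQ' := (subset_insert _ _).trans hQ
    obtain ⟨h1, h2, h3⟩ := hD Q hQ' p hp' hp
    obtain ⟨h4, h5, h6⟩ := hρ p hp'
    have hS : ∀ q ∈ P ∪ Q, q.Prime := fun q hq =>
      (mem_union.1 hq).elim (hP q) fun h => hP' q (hQ' h)
    have hpS : p ∉ P ∪ Q := fun h =>
      (mem_union.1 h).elim (fun h => disjoint_left.1 hd h hp') hp
    have co : p.Coprime (∏ q ∈ P ∪ Q, q) := Nat.Coprime.prod_right fun q hq =>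
      (Nat.coprime_primes (hP' p hp') (hS q hq)).2 fun h => hpS (h ▸ hq)
    rw [union_insert, prod_insert hpS, prod_insert hp, mul_assoc]
    simp only [h3]
    exact (mart_step hq co (prod_pos fun q hq => (hS q hq).pos) (hP' p hp').pos (ht p hp')
      (hG Q hQ') h1 h2 h4 h5 h6).trans (mul_le_mul_of_nonneg_left (ih hQ') (by positivity))

end Pool.Agent.MP_d228e7_nt
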