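import Pool.Agent.MP_cebb75_nt.Est

/-!
Periodic functions and their means.
-/

set_option autoImplicit false

open Finset

noncomputable section

namespace Pool.Agent.MP_d228e7_nt

open Pool.Agent.MP_cebb75_nt

/-- depends only on the residue -/
def Per (N : ℕ) (g : ℕ → ℝ) : Prop := ∀ m n, m ≡ n [MOD N] → g m = g n

theorem Per.of_dvd {N N' : ℕ} {g : ℕ → ℝ} (h : Per N g) (hd : N ∣ N') : Per N' g :=
  fun m n hmn => h m n (hmn.of_dvd hd)

theorem Per.shift {N : ℕ} {g : ℕ → ℝ} (h : Per N g) (b : ℕ) : Per N fun n => g (n + b) :=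
  fun _ _ hmn => h _ _ (hmn.add_right b)

theorem Per.mod {N : ℕ} {g : ℕ → ℝ} (h : Per N g) (n : ℕ) : g (n % N) = g n :=
  h _ _ (Nat.mod_modEq n N)

theorem av_shift {N : ℕ} {g : ℕ → ℝ} (h : Per N g) (b : ℕ) :
    av N (fun n => g (n + b)) = av N g := by
  unfold av
  congr 1
  induction b with
  | zero => simp
  | succ b ih =>
    rw [← ih]
    have h1 := sum_range_succ (fun n => g (n + b)) N
    have h2 := sum_range_succ' (fun n => g (n + b)) N
    have h3 : g (N + b) = g (0 + b) := h _ _ (by simp [Nat.ModEq])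
    have h4 : ∑ n ∈ range N, g (n + (b + 1)) = ∑ n ∈ range N, g (n + 1 + b) :=
      sum_congr rfl fun n _ => by rw [show n + (b + 1) = n + 1 + b by ring]
    linarith

theorem av_mul {N N' : ℕ} (co : N.Coprime N') (h0 : 0 < N) (h0' : 0 < N') {f g : ℕ → ℝ}
    (hf : Per N f) (hg : Per N' g) : av (N * N') (fun n => f n * g n) = av N f * av N' g := by
  unfold av
  have h1 := sum_crt co h0 h0' fun c m => f c * g m
  simp only [hf.mod, hg.mod] at h1
  rw [h1, ← sum_mul_sum, Nat.cast_mul, div_mul_div_comm]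

theorem av_mono {N : ℕ} {f g : ℕ → ℝ} (h : ∀ n, f n ≤ g n) : av N f ≤ av N g :=
  div_le_div_of_nonneg_right (sum_le_sum fun n _ => h n) (by positivity)

theorem av_sub (N : ℕ) (f g : ℕ → ℝ) : av N (fun n => f n - g n) = av N f - av N g := by
  simp only [av, sum_sub_distrib, sub_div]

theorem av_const_mul (N : ℕ) (c : ℝ) (f : ℕ → ℝ) : av N (fun n => c * f n) = c * av N f := by
  simp only [av, ← mul_sum, mul_div_assoc]

theorem om_congr {P : Finset ℕ} {m n : ℕ} (h : m ≡ n [MOD ∏ p ∈ P, p]) : om P 0 m = om P 0 n := by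
  unfold om
  congr 1
  refine filter_congr fun p hp => ?_
  rw [show m % p = n % p from h.of_dvd (dvd_prod_of_mem _ hp)]

theorem om_per (P : Finset ℕ) (f : ℕ → ℝ) : Per (∏ p ∈ P, p) fun n => f (om P 0 n) :=
  fun _ _ h => by simp only [om_congr h]

theorem om_union {P Q : Finset ℕ} (h : Disjoint P Q) (n : ℕ) :
    om (P ∪ Q) 0 n = om P 0 n + om Q 0 n := by
  unfold om
  rw [filter_union, card_union_of_disjoint (disjoint_filter_filter h)]

theorem om_insert {P : Finset ℕ} {p : ℕ} (hp : p ∉ P) (n : ℕ) :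
    om (insert p P) 0 n = om P 0 n + if n % p = 0 then 1 else 0 := by
  rw [om, filter_insert]
  split_ifs with h
  · rw [card_insert_of_notMem (by simp [hp])]
    rfl
  · rfl

theorem cop_prod {P Q : Finset ℕ} (hP : ∀ p ∈ P, p.Prime) (hQ : ∀ p ∈ Q, p.Prime)
    (h : Disjoint P Q) : (∏ p ∈ P, p).Coprime (∏ p ∈ Q, p) :=
  Nat.Coprime.prod_left fun p hp => Nat.Coprime.prod_right fun q hq =>
    (Nat.coprime_primes (hP p hp) (hQ q hq)).2 fun e => disjoint_left.1 h hp (e ▸ hq)

/-- expectation in the independent model -/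
def E1 (P : Finset ℕ) (f : ℕ → ℝ) : ℝ := EE (fun p => 1 / (p : ℝ)) bb P f

theorem E1_mono (P : Finset ℕ) {f g : ℕ → ℝ} (h : ∀ w, f w ≤ g w) : E1 P f ≤ E1 P g :=
  EE_mono (fun p _ => by positivity) (fun p _ => bb_nonneg p) h

theorem E1_insert {P : Finset ℕ} {p : ℕ} (hp : p ∉ P) (f : ℕ → ℝ) :
    E1 (insert p P) f = 1 / (p : ℝ) * E1 P (fun w => f (w + 1)) + bb p * E1 P f :=
  EE_insert _ _ hp f

theorem E1_mul (P : Finset ℕ) (c : ℝ) (f : ℕ → ℝ) : E1 P (fun w => c * f w) = c * E1 P f := by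
  have h := EE_lin (fun p => 1 / (p : ℝ)) bb P f f f c 0 0
  simpa [E1] using h

theorem E1_add (P : Finset ℕ) (f g : ℕ → ℝ) : E1 P (fun w => f w + g w) = E1 P f + E1 P g := by
  have h := EE_lin (fun p => 1 / (p : ℝ)) bb P f g f 1 1 0
  simpa [E1] using h

theorem E1_pow (P : Finset ℕ) (s : ℝ) :
    E1 P (fun w => s ^ w) = ∏ p ∈ P, (1 + (s - 1) * (1 / (p : ℝ))) := by
  rw [E1, EE_pow]
  exact prod_congr rfl fun p _ => by unfold bb; ring

theorem E1_pow_le (P : Finset ℕ) (s : ℝ) (hs : 1 ≤ s) :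
    E1 P (fun w => s ^ w) ≤ Real.exp ((s - 1) * ∑ p ∈ P, 1 / (p : ℝ)) := by
  rw [E1_pow, mul_sum, Real.exp_sum]
  refine prod_le_prod (fun p _ => ?_) fun p _ => by
    linarith [Real.add_one_le_exp ((s - 1) * (1 / (p : ℝ)))]
  have : 0 ≤ (s - 1) * (1 / (p : ℝ)) := mul_nonneg (by linarith) (by positivity)
  linarith

theorem E1_pt (P : Finset ℕ) : E1 P (pt 0) = ∏ p ∈ P, bb p := by
  have h := EE_pow (fun p => 1 / (p : ℝ)) bb P 0
  simp only [zero_mul, zero_add] at h
  rw [← h, E1]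
  congr 1
  funext w
  unfold pt
  rcases w with _ | w <;> simp

theorem av_om (P : Finset ℕ) (hP : ∀ p ∈ P, p.Prime) (f : ℕ → ℝ) :
    av (∏ p ∈ P, p) (fun n => f (om P 0 n)) = E1 P f := by
  induction P using Finset.induction_on generalizing f with
  | empty => simp [av, om, E1, EE]
  | insert p P hp ih =>
    have hpp := hP p (mem_insert_self _ _)
    have hP' : ∀ q ∈ P, q.Prime := fun q hq => hP q (mem_insert_of_mem hq)
    set N := ∏ q ∈ P, q with hN
    have hN0 : 0 < N := prod_pos fun q hq => (hP' q hq).pos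
    have co : p.Coprime N := Nat.Coprime.prod_right fun q hq =>
      (Nat.coprime_primes hpp (hP' q hq)).2 fun h => hp (h ▸ hq)
    have hom : ∀ n, om (insert p P) 0 n = om P 0 (n % N) + if n % p = 0 then 1 else 0 := by
      intro n
      rw [om_insert hp, om_congr (Nat.mod_modEq n N)]
    rw [prod_insert hp, av]
    simp only [hom]
    rw [sum_crt co hpp.pos hN0 fun c m => f (om P 0 m + if c = 0 then 1 else 0), E1_insert hp,
      ← ih hP', ← ih hP']
    obtain ⟨k, rfl⟩ : ∃ k, p = k + 1 := ⟨p - 1, by have := hpp.pos; omega⟩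
    rw [sum_range_succ']
    simp only [Nat.succ_ne_zero, if_false, if_true, add_zero, sum_const, card_range, nsmul_eq_mul,
      av, bb]
    have : (0 : ℝ) < N := by exact_mod_cast hN0
    rw [Nat.cast_mul, Nat.cast_add, Nat.cast_one, ← hN]
    clear_value N
    field_simp
    ring

/-- the discrepancy bound for all shifts -/
def MS (P : Finset ℕ) (g : ℕ → ℝ) (M : ℝ) : Prop :=
  ∀ N x b : ℕ, (∀ p ∈ P, p ∣ N) → Mult N x (fun n => g (n + b)) M

theorem MS.subset {P Q : Finset ℕ} {g : ℕ → ℝ} {M : ℝ} (h : MS P g M) (hs : P ⊆ Q) : MS Q g M :=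
  fun N x b hN => h N x b fun p hp => hN p (hs hp)

theorem MS.mul {P : Finset ℕ} {f g : ℕ → ℝ} {M M' : ℝ} (h : MS P f M) (h' : MS P g M') :
    MS P (fun n => f n * g n) (M * M') :=
  fun N x b hN => (h N x b hN).mul (h' N x b hN)

theorem MS.sub {P : Finset ℕ} {f g : ℕ → ℝ} {M M' : ℝ} (h : MS P f M) (h' : MS P g M') :
    MS P (fun n => f n - g n) (M + M') := by
  intro N x b hN
  have := (h N x b hN).add ((h' N x b hN).smul (-1))
  convert this using 1
  · funext n
    simp [sub_eq_add_neg]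
  · simp

theorem MS.mono {P : Finset ℕ} {g : ℕ → ℝ} {M M' : ℝ} (h : MS P g M) (hM : M ≤ M') : MS P g M' :=
  fun N x b hN => (h N x b hN).mono hM

theorem MS.const (P : Finset ℕ) (c : ℝ) : MS P (fun _ => c) |c| := by
  intro N x b _
  have := (Mult.atom (x := x) (Atom.one N)).smul c
  convert this using 1
  · funext n
    simp
  · simp

theorem ms_choose (P : Finset ℕ) (hP : ∀ p ∈ P, 0 < p) (j : ℕ) :
    MS P (fun n => ((om P 0 n).choose j : ℝ)) ((P.card : ℝ) ^ j) := by
  intro N x b hN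
  have h1 : (fun n => ((om P 0 (n + b)).choose j : ℝ)) =
      ∑ D ∈ powersetCard j P, ∏ p ∈ D, ind p ((p - 1) * b) := by
    funext n
    have h2 := congrFun (choose_om P 0 j hP) (n + b)
    rw [h2, Finset.sum_apply, Finset.sum_apply]
    refine sum_congr rfl fun D hD => ?_
    rw [Finset.prod_apply, Finset.prod_apply]
    refine prod_congr rfl fun p hp => ?_
    obtain ⟨k, rfl⟩ : ∃ k, p = k + 1 :=
      ⟨p - 1, by have := hP p ((mem_powersetCard.1 hD).1 hp); omega⟩
    unfold ind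
    refine if_congr ?_ rfl rfl
    have h3 : (k + 1 - 1) * b + b ≡ 0 [MOD k + 1] := by
      rw [Nat.add_sub_cancel, ← Nat.succ_mul]
      exact (Nat.modEq_zero_iff_dvd).2 (dvd_mul_right _ _)
    exact ⟨fun h => Nat.ModEq.add_right_cancel' b (h.trans h3.symm),
      fun h => (h.add_right b).trans h3⟩
  rw [h1]
  refine (Mult.sum _ _ (fun _ => 1) fun D hD => ?_).mono ?_
  · have := Mult.prod (N := N) (x := x) D (fun p => ind p ((p - 1) * b)) (fun _ => 1) fun p hp =>
      Mult.atom (Or.inr ⟨p, _, hN p ((mem_powersetCard.1 hD).1 hp), rfl⟩)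
    simpa using this
  · rw [sum_const, card_powersetCard, nsmul_eq_mul, mul_one]
    exact_mod_cast Nat.choose_le_pow _ _

theorem MS.window {P : Finset ℕ} (hP : ∀ p ∈ P, 0 < p) {g : ℕ → ℝ} {M : ℝ} (h : MS P g M)
    (n t : ℕ) : |∑ b ∈ range t, g (n + b) - t * av (∏ p ∈ P, p) g| ≤ 2 * M := by
  set N := ∏ p ∈ P, p with hN
  have hN0 : 0 < N := prod_pos hP
  have h1 : ∀ x, |Dsc N x g| ≤ M := by
    intro x
    have := h N x 0 (fun p hp => dvd_prod_of_mem _ hp) 1 1
      (fun h hh => by rw [one_mul]; exact atom_disc hN0 x hh) 1 (Atom.one N)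
    simpa using this
  have h2 : ∑ b ∈ range t, g (n + b) - t * av N g = Dsc N (n + t) g - Dsc N n g := by
    simp only [Dsc, sum_range_add]
    push_cast
    ring
  rw [h2]
  linarith [abs_sub (Dsc N (n + t) g) (Dsc N n g), h1 (n + t), h1 n]

end Pool.Agent.MP_d228e7_nt
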