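import Pool.Agent.MP_d228e7_nt.Core

/-!
One dyadic scale.
-/

set_option autoImplicit false

open Finset

noncomputable section

namespace Pool.Agent.MP_d228e7_nt

open Pool.Agent.MP_cebb75_nt Pool.Agent.MP_fdd1d3_nt

/-- number of elements of the window of length `2 ^ j` without prime factor up to `2 * 2 ^ j` -/
def NN (j n : ℕ) : ℝ := ∑ b ∈ range (2 ^ j), pt 0 (om (PP 0 (2 * 2 ^ j)) 0 (n + b))

theorem PP_one (z : ℕ) : PP 0 z = PP 1 z := by
  ext p
  simp only [mem_PP]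
  exact ⟨fun h => ⟨⟨h.2.one_lt, h.1.2⟩, h.2⟩, fun h => ⟨⟨h.2.pos, h.1.2⟩, h.2⟩⟩

theorem two_le {a b : ℕ} (h : a ≤ b) : (2 : ℝ) ^ a ≤ 2 ^ b := pow_le_pow_right₀ one_le_two h

theorem scale {j g e r : ℕ} (hq : Even (r + 2)) (h1 : 512 * e ≤ j) (h2 : j < 512 * (e + 1))
    (h3 : 1024 ≤ j) (h4 : j + 1 < 2 ^ g) (h5 : 3 * (r + 2) ≤ 2 ^ g)
    (h6 : r + 2 + g * (g * (2 * (13 + g) + 1) + (2 * 97 + 1)) + 13 * g + 60 ≤ e) (x X : ℕ) :
    (((range x).filter fun n => NN j (n + X) < 2 ^ j / (480 * j)).card : ℝ) ≤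
      x / 2 ^ (e * (r + 2)) + 2 ^ (200 * j * (r + 2)) := by
  have hj : (0 : ℝ) < j := by exact_mod_cast (by omega : 0 < j)
  have hjg : (j : ℝ) ≤ 2 ^ g := by exact_mod_cast (by omega : j ≤ 2 ^ g)
  obtain ⟨lo, up, h⟩ := small (a := ((r + 2 : ℕ) : ℝ)) (by exact_mod_cast (by omega : 1 ≤ r + 2))
    g (2 ^ (4 * e)) 13 Nat.one_le_two_pow (Nat.pow_lt_pow_right one_lt_two (by omega))
  rw [show (2 : ℝ) ^ 24 / 4 ^ 13 = 1 / 4 by norm_num,
    show ((2 ^ (4 * e) : ℕ) : ℝ) ^ (4 * 13 + 8) = 2 ^ (240 * e) by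
      push_cast; rw [← pow_mul]; congr 1; ring] at h
  set γ : ℝ := 2 ^ j / (480 * j) with hγ
  have hγ0 : 0 < γ := by positivity
  have hγM : 2 * 2 ^ (240 * e) ≤ γ := by
    rw [hγ, le_div_iff₀ (by positivity)]
    calc (2 : ℝ) * 2 ^ (240 * e) * (480 * j) ≤ 2 * 2 ^ (240 * e) * (2 ^ 9 * 2 ^ g) := by
          gcongr; norm_num
      _ = 2 ^ (240 * e + g + 10) := by ring
      _ ≤ _ := two_le (by omega)
  have hγ1 : 1 ≤ γ := by linarith [one_le_pow₀ (n := 240 * e) (one_le_two (α := ℝ))]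
  have key := count_bad (m := 97) (w := 2 ^ (2 * e)) (t := 2 ^ j) (K := 4 * (8 : ℕ))
    (μ := 4 * g) hq h (by positivity) (by rw [← pow_mul]; exact Nat.pow_le_pow_right two_pos (by omega))
    (by rw [← pow_succ']; exact Nat.pow_le_pow_right two_pos (by omega)) Nat.one_le_two_pow
    (mu_le _ 8 _ (by
      refine lt_of_lt_of_le ?_ (Nat.pow_le_pow_left (Nat.le_succ _) _)
      rw [← pow_succ', ← pow_mul]
      exact Nat.pow_lt_pow_right one_lt_two (by omega)))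
    (by
      rw [PP_one]
      refine mu_le 1 g _ ?_
      rw [← pow_succ']
      exact Nat.pow_lt_pow_right one_lt_two h4)
    (by
      have := exp_le 16
      norm_num at this ⊢
      linarith) hγ0
    (by
      have e1 := V_ge (2 * 2 ^ j) (Nat.le_mul_of_pos_right _ (by positivity))
      have e2 : Real.log ((2 * 2 ^ j : ℕ) : ℝ) ≤ j := by
        rw [← pow_succ']
        push_cast
        rw [Real.log_pow]
        push_cast
        have : (1024 : ℝ) ≤ j := by exact_mod_cast h3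
        nlinarith [Real.log_two_lt_d9]
      have e3 : 0 < Real.log ((2 * 2 ^ j : ℕ) : ℝ) :=
        Real.log_pos (by exact_mod_cast (by have := Nat.one_le_two_pow (n := j); omega))
      have e4 : 1 / (60 * (j : ℝ)) ≤ ∏ p ∈ PP 0 (2 * 2 ^ j), bb p :=
        (one_div_le_one_div_of_le (by positivity) (by linarith)).trans e1
      have e5 := mul_le_mul_of_nonneg_left e4 (show (0 : ℝ) ≤ 2 ^ j by positivity)
      have e6 : (2 : ℝ) ^ j * (1 / (60 * j)) = 8 * γ := by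
        rw [hγ]
        field_simp
        norm_num
      push_cast
      linarith) x X
  set q := r + 2 with hq'
  set D := g * (2 * (13 + g) + 1) + (2 * 97 + 1) with hD
  have hΛ : (3 * (q : ℝ)) ^ D * (2 * Real.exp (4 * (8 : ℕ))) * Real.exp (4 * g) ≤
      2 ^ (g * D) * (2 * 2 ^ 48) * 2 ^ (12 * g) := by
    have e1 : (3 * (q : ℝ)) ^ D ≤ 2 ^ (g * D) := by
      rw [pow_mul]
      exact pow_le_pow_left₀ (by positivity) (by exact_mod_cast h5) _
    have e2 : Real.exp (4 * (8 : ℕ)) ≤ 2 ^ 48 := by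
      have := exp_le 4
      norm_num at this ⊢
      exact this
    have e3 : Real.exp (4 * g) ≤ 2 ^ (12 * g) :=
      (Real.exp_le_exp.2 (by linarith [Nat.cast_nonneg (α := ℝ) g])).trans (exp_le g)
    gcongr
  have hR : 2 ^ q * (4 * ((2 ^ j : ℕ) : ℝ) * ((3 * (q : ℝ)) ^ D * (2 * Real.exp (4 * (8 : ℕ))) *
      Real.exp (4 * g))) / ((2 ^ (2 * e) : ℕ) : ℝ) ≤ γ / 2 ^ e := by
    push_cast
    rw [hγ, div_div, div_le_div_iff₀ (by positivity) (by positivity)]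
    push_cast at hΛ
    calc _ ≤ (2 : ℝ) ^ q * (4 * 2 ^ j * (2 ^ (g * D) * (2 * 2 ^ 48) * 2 ^ (12 * g))) *
          (2 ^ 9 * 2 ^ g * 2 ^ e) := by gcongr; norm_num
      _ = 2 ^ j * 2 ^ (q + g * D + 13 * g + 60 + e) := by ring
      _ ≤ _ := mul_le_mul_of_nonneg_left (two_le (by omega)) (by positivity)
  have hB : ((2 ^ j : ℕ) : ℝ) * (2 ^ (240 * e) * ((2 * 2 ^ j : ℕ) : ℝ) ^ (2 * 97 + 2) +
      2 * 2 ^ (240 * e)) ≤ 2 ^ (200 * j) := by
    rw [← pow_succ']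
    push_cast
    rw [← pow_mul, ← pow_add, ← pow_succ']
    have e1 : (2 : ℝ) ^ (240 * e + 1) ≤ 2 ^ (240 * e + (j + 1) * 196) := two_le (by omega)
    calc _ ≤ (2 : ℝ) ^ j * (2 ^ (240 * e + (j + 1) * 196) + 2 ^ (240 * e + (j + 1) * 196)) := by
          gcongr
      _ = 2 ^ (j + (240 * e + (j + 1) * 196 + 1)) := by rw [pow_add 2 j, pow_succ]; ring
      _ ≤ _ := two_le (by omega)
  have hγq : 1 ≤ γ ^ q := one_le_pow₀ hγ1
  have e1 := pow_le_pow_left₀ (by positivity) hR q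
  have e2 := pow_le_pow_left₀ (by positivity) hB q
  rw [div_pow γ, ← pow_mul] at e1
  rw [← pow_mul] at e2
  have e3 := mul_le_mul_of_nonneg_left e1 (Nat.cast_nonneg (α := ℝ) x)
  have e4 := le_mul_of_one_le_right (show (0 : ℝ) ≤ 2 ^ (200 * j * q) by positivity) hγq
  refine le_of_mul_le_mul_right (key.trans ?_) (pow_pos hγ0 q)
  rw [add_mul, div_mul_eq_mul_div, mul_div_assoc (x : ℝ)]
  exact add_le_add e3 (e2.trans e4)

end Pool.Agent.MP_d228e7_nt
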