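import Pool.Agent.MP_d228e7_nt.Per
import Pool.Agent.MP_c7a479_co.PolySieve

/-!
Upper and lower sieve weights with pointwise bounds.
-/

set_option autoImplicit false

open Finset

noncomputable section

namespace Pool.Agent.MP_d228e7_nt

open Pool.Agent.MP_cebb75_nt Pool.Agent.MP_fdd1d3_nt

/-- truncated inclusion-exclusion -/
def BB (m w : ℕ) : ℝ := ∑ j ∈ range (2 * m + 1), (-1) ^ j * (w.choose j : ℝ)

/-- the first omitted term -/
def RR (m w : ℕ) : ℝ := w.choose (2 * m + 1)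

theorem pt_nonneg (w : ℕ) : 0 ≤ pt 0 w := by
  unfold pt
  split_ifs <;> norm_num

theorem pt_le_one (w : ℕ) : pt 0 w ≤ 1 := by
  unfold pt
  split_ifs <;> norm_num

theorem pt_add (v w : ℕ) : pt 0 (v + w) = pt 0 v * pt 0 w := by
  unfold pt
  rcases v with _ | v <;> rcases w with _ | w <;> simp

theorem pt_le_BB (m w : ℕ) : pt 0 w ≤ BB m w := (MP_c7a479_co.PolySieve.bonf w m).1

theorem BB_sub (m w : ℕ) : BB m w - RR m w ≤ pt 0 w := (MP_c7a479_co.PolySieve.bonf w m).2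

theorem BB_nonneg (m w : ℕ) : 0 ≤ BB m w := (pt_nonneg w).trans (pt_le_BB m w)

theorem RR_nonneg (m w : ℕ) : 0 ≤ RR m w := Nat.cast_nonneg _

theorem choose_mul_le (w k : ℕ) {c : ℝ} (hc : 0 ≤ c) : (w.choose k : ℝ) * c ^ k ≤ (1 + c) ^ w := by
  by_cases h : k ≤ w
  · rw [add_comm, add_pow]
    have := single_le_sum (f := fun i => c ^ i * 1 ^ (w - i) * (w.choose i : ℝ))
      (fun i _ => by positivity) (mem_range.2 (Nat.lt_succ_of_le h))
    simpa [mul_comm] using this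
  · rw [Nat.choose_eq_zero_of_lt (by omega)]
    simp only [Nat.cast_zero, zero_mul]
    positivity

theorem RR_le {a : ℝ} (ha : 1 ≤ a) (m w : ℕ) : RR m w ≤ a ^ (2 * m + 1) * (1 + 1 / a) ^ w := by
  have h := choose_mul_le w (2 * m + 1) (c := 1 / a) (by positivity)
  rw [one_div_pow, mul_one_div, div_le_iff₀' (by positivity)] at h
  exact h

theorem one_le_wt {a : ℝ} (ha : 1 ≤ a) (k w : ℕ) : 1 ≤ a ^ k * (1 + 1 / a) ^ w :=
  one_le_mul_of_one_le_of_one_le (one_le_pow₀ ha)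
    (one_le_pow₀ (le_add_of_nonneg_right (by positivity)))

theorem BB_le {a : ℝ} (ha : 1 ≤ a) (m w : ℕ) :
    BB m w ≤ 2 * (a ^ (2 * m + 1) * (1 + 1 / a) ^ w) := by
  linarith [BB_sub m w, pt_le_one w, RR_le ha m w, one_le_wt ha (2 * m + 1) w]

theorem E1_one (P : Finset ℕ) : E1 P (fun _ => 1) = 1 := by
  simpa using E1_pow P 1

theorem E1_nonneg (P : Finset ℕ) {f : ℕ → ℝ} (h : ∀ w, 0 ≤ f w) : 0 ≤ E1 P f :=
  EE_nonneg (fun p _ => by positivity) (fun p _ => bb_nonneg p) h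

theorem bb_ge {P : Finset ℕ} (hP : ∀ p ∈ P, 2 ≤ p) :
    Real.exp (-(2 * ∑ p ∈ P, 1 / (p : ℝ))) ≤ ∏ p ∈ P, bb p := by
  refine le_trans (Real.exp_le_exp.2 ?_) (bb_lb hP)
  have : 2 * ∑ p ∈ P, (1 / (p : ℝ)) ^ 2 ≤ ∑ p ∈ P, 1 / (p : ℝ) := by
    rw [mul_sum]
    refine sum_le_sum fun p hp => ?_
    have h1 : 1 / (p : ℝ) ≤ 1 / 2 := one_div_le_one_div_of_le two_pos (by exact_mod_cast hP p hp)
    have h2 : (0 : ℝ) ≤ 1 / p := by positivity
    nlinarith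
  linarith

theorem E1_RR {P : Finset ℕ} (hP : ∀ p ∈ P, 2 ≤ p) {K ε : ℝ} (hK : ∑ p ∈ P, 1 / (p : ℝ) ≤ K)
    (m : ℕ) (hε : Real.exp (4 * K) ≤ ε * 2 ^ (2 * m + 1)) : E1 P (RR m) ≤ ε * E1 P (BB m) := by
  have h1 : 2 ^ (2 * m + 1) * E1 P (RR m) ≤ Real.exp (2 * K) := by
    rw [← E1_mul]
    refine (E1_mono P (g := fun w => 3 ^ w) fun w => ?_).trans
      ((E1_pow_le P 3 (by norm_num)).trans (Real.exp_le_exp.2 (by linarith)))
    have := choose_mul_le w (2 * m + 1) (c := 2) (by norm_num)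
    norm_num at this
    rw [mul_comm]
    exact this
  have h2 : Real.exp (-(2 * K)) ≤ E1 P (BB m) := by
    refine le_trans ?_ (E1_mono P (pt_le_BB m))
    rw [E1_pt]
    exact (Real.exp_le_exp.2 (by linarith)).trans (bb_ge hP)
  have h3 : Real.exp (2 * K) = Real.exp (4 * K) * Real.exp (-(2 * K)) := by
    rw [← Real.exp_add]
    congr 1
    ring
  have h4 : (0 : ℝ) < 2 ^ (2 * m + 1) := by positivity
  have h5 := mul_le_mul hε h2 (Real.exp_pos _).le ((Real.exp_pos _).le.trans hε)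
  refine le_of_mul_le_mul_left ?_ h4
  linarith

theorem MS.sum {ι : Type} {P : Finset ℕ} (s : Finset ι) (g : ι → ℕ → ℝ) (M : ι → ℝ)
    (h : ∀ i ∈ s, MS P (g i) (M i)) : MS P (fun n => ∑ i ∈ s, g i n) (∑ i ∈ s, M i) := by
  intro N x b hN
  have := Mult.sum s (fun i n => g i (n + b)) M fun i hi => h i hi N x b hN
  convert this using 1
  funext n
  rw [Finset.sum_apply]

theorem ms_RR {P : Finset ℕ} (hP : ∀ p ∈ P, 0 < p) {Y : ℝ} (hY : P.card + 1 ≤ Y) (m : ℕ) :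
    MS P (fun n => RR m (om P 0 n)) (Y ^ (2 * m + 1)) :=
  (ms_choose P hP _).mono (pow_le_pow_left₀ (by positivity) (by linarith) _)

theorem ms_BB {P : Finset ℕ} (hP : ∀ p ∈ P, 0 < p) {Y : ℝ} (hY : P.card + 1 ≤ Y) (m : ℕ) :
    MS P (fun n => BB m (om P 0 n)) (Y ^ (2 * m)) := by
  refine (MS.sum (range (2 * m + 1)) _ _ fun j _ =>
    (MS.const P ((-1) ^ j)).mul (ms_choose P hP j)).mono ?_
  refine le_trans ?_ (pow_le_pow_left₀ (by positivity) hY _)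
  rw [add_pow]
  refine sum_le_sum fun j hj => ?_
  rw [abs_neg_one_pow, one_mul, one_pow, mul_one]
  refine le_mul_of_one_le_right (by positivity) ?_
  exact_mod_cast Nat.choose_pos (Nat.lt_succ_iff.1 (mem_range.1 hj))

/-- a pair of sieve weights -/
structure SP (a : ℝ) (P : Finset ℕ) (lo up : ℕ → ℝ) (M : ℝ) (D : ℕ) (s : ℝ) : Prop where
  lo_le : ∀ n, lo n ≤ pt 0 (om P 0 n)
  le_up : ∀ n, pt 0 (om P 0 n) ≤ up n
  per_lo : Per (∏ p ∈ P, p) lo
  per_up : Per (∏ p ∈ P, p) up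
  ms_lo : MS P lo M
  ms_up : MS P up M
  abs_lo : ∀ n, |lo n| ≤ (3 * a) ^ D * (1 + 1 / a) ^ om P 0 n
  abs_up : ∀ n, |up n| ≤ (3 * a) ^ D * (1 + 1 / a) ^ om P 0 n
  mean : (1 - s) * av (∏ p ∈ P, p) up ≤ av (∏ p ∈ P, p) lo

variable {a : ℝ} {P Q : Finset ℕ} {lo up : ℕ → ℝ} {M s : ℝ} {D : ℕ}

theorem SP.av_up (h : SP a P lo up M D s) (hP : ∀ p ∈ P, p.Prime) :
    ∏ p ∈ P, bb p ≤ av (∏ p ∈ P, p) up := by
  rw [← E1_pt, ← av_om P hP]
  exact av_mono h.le_up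

theorem SP.av_nonneg (h : SP a P lo up M D s) : 0 ≤ av (∏ p ∈ P, p) up :=
  div_nonneg (sum_nonneg fun n _ => (pt_nonneg _).trans (h.le_up n)) (by positivity)

theorem SP.mono (h : SP a P lo up M D s) (ha : 1 ≤ a) {M' s' : ℝ} {D' : ℕ} (hM : M ≤ M')
    (hD : D ≤ D') (hs : s ≤ s') : SP a P lo up M' D' s' := by
  have h1 : ∀ w : ℕ, (3 * a) ^ D * (1 + 1 / a) ^ w ≤ (3 * a) ^ D' * (1 + 1 / a) ^ w := fun w =>
    mul_le_mul_of_nonneg_right (pow_le_pow_right₀ (by linarith) hD) (by positivity)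
  refine ⟨h.1, h.2, h.3, h.4, h.5.mono hM, h.6.mono hM, fun n => (h.7 n).trans (h1 _),
    fun n => (h.8 n).trans (h1 _), le_trans ?_ h.9⟩
  exact mul_le_mul_of_nonneg_right (by linarith) h.av_nonneg

theorem sp_empty (a : ℝ) : SP a ∅ (fun _ => 1) (fun _ => 1) 1 0 0 := by
  have h := MS.const ∅ 1
  rw [abs_one] at h
  refine ⟨fun n => ?_, fun n => ?_, fun _ _ _ => rfl, fun _ _ _ => rfl, h, h, fun n => ?_,
    fun n => ?_, by simp⟩ <;> simp [om, pt]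

theorem MS.nonneg {g : ℕ → ℝ} (hP : ∀ p ∈ P, 0 < p) (h : MS P g M) : 0 ≤ M := by
  linarith [h.window hP 0 0, abs_nonneg (∑ b ∈ range 0, g (0 + b) - (0 : ℕ) * av (∏ p ∈ P, p) g)]

theorem av_union (hP : ∀ p ∈ P, p.Prime) (hQ : ∀ p ∈ Q, p.Prime) (hd : Disjoint P Q)
    {g : ℕ → ℝ} (hg : Per (∏ p ∈ P, p) g) (f : ℕ → ℝ) :
    av (∏ p ∈ P ∪ Q, p) (fun n => g n * f (om Q 0 n)) = av (∏ p ∈ P, p) g * E1 Q f := by
  rw [prod_union hd, av_mul (cop_prod hP hQ hd) (prod_pos fun p hp => (hP p hp).pos)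
    (prod_pos fun p hp => (hQ p hp).pos) hg (om_per Q f), av_om Q hQ]

theorem per_union (hd : Disjoint P Q) {g : ℕ → ℝ} (hg : Per (∏ p ∈ P, p) g) (f : ℕ → ℝ) :
    Per (∏ p ∈ P ∪ Q, p) (fun n => g n * f (om Q 0 n)) := by
  intro m n h
  rw [prod_union hd] at h
  simp only [hg m n (h.of_mul_right _), om_congr (h.of_mul_left _)]

theorem SP.step (h : SP a P lo up M D s) (ha : 1 ≤ a) (hP : ∀ p ∈ P, p.Prime)
    (hQ : ∀ p ∈ Q, p.Prime) (hd : Disjoint P Q) {K ε Y : ℝ} (hK : ∑ p ∈ Q, 1 / (p : ℝ) ≤ K)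
    (m : ℕ) (hε : Real.exp (4 * K) ≤ ε * 2 ^ (2 * m + 1)) (hY : Q.card + 1 ≤ Y) (hY2 : 2 ≤ Y) :
    SP a (P ∪ Q) (fun n => lo n * BB m (om Q 0 n) - up n * RR m (om Q 0 n))
      (fun n => up n * BB m (om Q 0 n)) (M * Y ^ (2 * m + 2)) (D + (2 * m + 1)) (s + ε) := by
  have hM := h.ms_lo.nonneg fun p hp => (hP p hp).pos
  have mB := (ms_BB (fun p hp => (hQ p hp).pos) hY m).subset (subset_union_right (s₁ := P))
  have mR := (ms_RR (fun p hp => (hQ p hp).pos) hY m).subset (subset_union_right (s₁ := P))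
  have mlo := h.ms_lo.subset (subset_union_left (s₂ := Q))
  have mup := h.ms_up.subset (subset_union_left (s₂ := Q))
  have hY0 : 0 ≤ M * Y ^ (2 * m) := by positivity
  have hab : ∀ n, 3 * ((3 * a) ^ D * (1 + 1 / a) ^ om P 0 n *
      (a ^ (2 * m + 1) * (1 + 1 / a) ^ om Q 0 n)) ≤
      (3 * a) ^ (D + (2 * m + 1)) * (1 + 1 / a) ^ om (P ∪ Q) 0 n := by
    intro n
    have h3 : (3 : ℝ) ≤ 3 ^ (2 * m + 1) := le_self_pow₀ (by norm_num) (by omega)
    rw [om_union hd, pow_add (3 * a), pow_add (1 + 1 / a), mul_pow 3 a (2 * m + 1)]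
    refine (mul_le_mul_of_nonneg_right h3 (by positivity)).trans (le_of_eq (by ring))
  have hb : ∀ (g : ℕ → ℝ) (n : ℕ) (y c : ℝ), |g n| ≤ (3 * a) ^ D * (1 + 1 / a) ^ om P 0 n →
      0 ≤ y → y ≤ c * (a ^ (2 * m + 1) * (1 + 1 / a) ^ om Q 0 n) →
      |g n * y| ≤ c * ((3 * a) ^ D * (1 + 1 / a) ^ om P 0 n *
        (a ^ (2 * m + 1) * (1 + 1 / a) ^ om Q 0 n)) := by
    intro g n y c h1 h2 h3
    rw [abs_mul, abs_of_nonneg h2]
    exact (mul_le_mul h1 h3 h2 (by positivity)).trans (le_of_eq (by ring))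
  refine ⟨fun n => ?_, fun n => ?_, fun x y hxy => ?_, per_union hd h.per_up _,
    ((mlo.mul mB).sub (mup.mul mR)).mono ?_, (mup.mul mB).mono ?_, fun n => ?_, fun n => ?_, ?_⟩
  · rw [om_union hd, pt_add]
    have h1 := mul_le_mul_of_nonneg_right (h.lo_le n) (BB_nonneg m (om Q 0 n))
    have h2 := mul_le_mul_of_nonneg_right (h.le_up n) (RR_nonneg m (om Q 0 n))
    have h3 := mul_le_mul_of_nonneg_left (BB_sub m (om Q 0 n)) (pt_nonneg (om P 0 n))
    linarith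
  · rw [om_union hd, pt_add]
    exact mul_le_mul (h.le_up n) (pt_le_BB m _) (pt_nonneg _) ((pt_nonneg _).trans (h.le_up n))
  · have h1 := per_union hd h.per_lo (BB m) x y hxy
    have h2 := per_union hd h.per_up (RR m) x y hxy
    simp only at h1 h2 ⊢
    rw [h1, h2]
  · rw [pow_succ Y (2 * m + 1), pow_succ Y (2 * m), ← mul_assoc, ← mul_assoc, ← mul_assoc]
    nlinarith [mul_nonneg hY0 (show 0 ≤ Y * Y - Y - 1 by nlinarith)]
  · rw [pow_succ Y (2 * m + 1), pow_succ Y (2 * m), ← mul_assoc, ← mul_assoc]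
    nlinarith [mul_nonneg hY0 (show 0 ≤ Y * Y - 1 by nlinarith)]
  · have h1 := hb lo n _ 2 (h.abs_lo n) (BB_nonneg m _) (BB_le ha m _)
    have h2 := hb up n _ 1 (h.abs_up n) (RR_nonneg m _) (by simpa using RR_le ha m _)
    linarith [hab n, abs_sub (lo n * BB m (om Q 0 n)) (up n * RR m (om Q 0 n))]
  · have h1 := hb up n _ 2 (h.abs_up n) (BB_nonneg m _) (BB_le ha m _)
    have h2 := hab n
    have h3 : 0 ≤ (3 * a) ^ D * (1 + 1 / a) ^ om P 0 n *
        (a ^ (2 * m + 1) * (1 + 1 / a) ^ om Q 0 n) := by positivity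
    linarith
  · rw [av_sub, av_union hP hQ hd h.per_lo, av_union hP hQ hd h.per_up, av_union hP hQ hd h.per_up]
    have h1 := mul_le_mul_of_nonneg_right h.mean (E1_nonneg Q (BB_nonneg m))
    have h2 := mul_le_mul_of_nonneg_left (E1_RR (fun p hp => (hQ p hp).two_le) hK m hε)
      h.av_nonneg
    linarith

theorem PP_prime {u z p : ℕ} (h : p ∈ PP u z) : p.Prime := ((mem_PP _ _ _).1 h).2

theorem PP_disj (u v z : ℕ) : Disjoint (PP u v) (PP v z) := by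
  refine disjoint_left.2 fun p h1 h2 => ?_
  have := (mem_PP _ _ _).1 h1
  have := (mem_PP _ _ _).1 h2
  omega

theorem PP_union {v z : ℕ} (h : v ≤ z) : PP 0 v ∪ PP v z = PP 0 z := by
  ext p
  simp only [mem_union, mem_PP]
  by_cases hp : p.Prime
  · simp only [hp, and_true]
    omega
  · simp [hp]

theorem PP_card {u z : ℕ} (hu : 1 ≤ u) (hz : 1 ≤ z) : ((PP u z).card : ℝ) + 1 ≤ z := by
  have : (PP u z).card ≤ z - u := by simpa [PP] using card_filter_le (Ioc u z) Nat.Prime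
  exact_mod_cast (by omega : (PP u z).card + 1 ≤ z)

theorem mu_sqrt (z : ℕ) : ∑ p ∈ PP (Nat.sqrt z) z, 1 / (p : ℝ) ≤ 4 := by
  by_cases hz : 2 ≤ z
  · simp only [one_div]
    exact MP_c7a479_co.PolySieve.sum_inv_le z hz
  · rw [show PP (Nat.sqrt z) z = ∅ from eq_empty_of_forall_notMem fun p hp => by
      have := (mem_PP _ _ _).1 hp
      have := this.2.two_le
      omega]
    simp

theorem sqrt_lt_pow {z y r : ℕ} (h : z < y ^ 2 ^ (r + 1)) : Nat.sqrt z < y ^ 2 ^ r := by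
  rw [Nat.sqrt_lt', ← pow_mul, ← pow_succ]
  exact h

theorem mu_le (u r : ℕ) : ∀ z, z < (u + 1) ^ 2 ^ r → ∑ p ∈ PP u z, 1 / (p : ℝ) ≤ 4 * r := by
  induction r with
  | zero =>
    intro z hz
    rw [show PP u z = ∅ from eq_empty_of_forall_notMem fun p hp => by
      have := (mem_PP _ _ _).1 hp
      simp at hz
      omega]
    simp
  | succ r ih =>
    intro z hz
    have h1 := ih _ (sqrt_lt_pow hz)
    have h2 := mu_sqrt z
    have h3 : ∑ p ∈ PP u z, 1 / (p : ℝ) ≤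
        ∑ p ∈ PP u (Nat.sqrt z) ∪ PP (Nat.sqrt z) z, 1 / (p : ℝ) := by
      refine sum_le_sum_of_subset_of_nonneg (fun p hp => ?_) fun p _ _ => by positivity
      simp only [mem_union, mem_PP] at hp ⊢
      simp only [hp.2, and_true]
      omega
    rw [sum_union (PP_disj _ _ _)] at h3
    push_cast
    linarith

theorem exp_le (k : ℕ) : Real.exp (8 * k) ≤ 2 ^ (12 * k) := by
  rw [mul_comm, Real.exp_nat_mul, pow_mul]
  exact pow_le_pow_left₀ (Real.exp_pos _).le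
    (MP_c7a479_co.PolySieve.exp_eight.trans (by norm_num)) _

theorem small (ha : 1 ≤ a) (h : ℕ) : ∀ u i : ℕ, 1 ≤ u → u < 2 ^ 2 ^ h → ∃ lo up,
    SP a (PP 0 u) lo up ((u : ℝ) ^ (4 * i + 8)) (h * (2 * (i + h) + 1)) (2 ^ 24 / 4 ^ i) := by
  have h0 : ∀ h i : ℕ, ∃ lo up, SP a (PP 0 1) lo up (((1 : ℕ) : ℝ) ^ (4 * i + 8))
      (h * (2 * (i + h) + 1)) (2 ^ 24 / 4 ^ i) := fun h i => by
    rw [show PP 0 1 = ∅ by decide]
    exact ⟨_, _, (sp_empty a).mono ha (by simp) (Nat.zero_le _) (by positivity)⟩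
  induction h with
  | zero =>
    intro u i h1 h2
    obtain rfl : u = 1 := by simp at h2; omega
    exact h0 0 i
  | succ h ih =>
    intro u i h1 h2
    rcases h1.eq_or_lt with rfl | h1
    · exact h0 _ i
    have h3 : 1 ≤ Nat.sqrt u := by rw [Nat.le_sqrt]; omega
    obtain ⟨lo, up, h4⟩ := ih _ (i + 1) h3 (sqrt_lt_pow h2)
    have h5 := h4.step ha (fun p => PP_prime) (fun p => PP_prime) (PP_disj 0 _ u) (mu_sqrt u) i
      (ε := 2 ^ 23 / 4 ^ i) (Y := u) (by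
        have := exp_le 2
        rw [pow_succ (2 : ℝ) (2 * i), pow_mul, show (2 : ℝ) ^ 2 = 4 by norm_num, ← mul_assoc,
          div_mul_cancel₀ _ (by positivity)]
        norm_num at this ⊢
        exact this) (PP_card h3 h1.le) (by exact_mod_cast h1)
    rw [PP_union (Nat.sqrt_le_self u)] at h5
    refine ⟨_, _, h5.mono ha ?_ (by nlinarith) ?_⟩
    · have h6 : ((Nat.sqrt u : ℕ) : ℝ) ^ 2 ≤ u := by exact_mod_cast Nat.sqrt_le' u
      rw [show 4 * (i + 1) + 8 = 2 * (2 * i + 6) by ring, pow_mul,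
        show 4 * i + 8 = 2 * i + 6 + (2 * i + 2) by ring, pow_add (u : ℝ) (2 * i + 6)]
      exact mul_le_mul_of_nonneg_right (pow_le_pow_left₀ (by positivity) h6 _) (by positivity)
    · rw [pow_succ (4 : ℝ) i, ← div_div, div_right_comm, ← add_div]
      exact div_le_div_of_nonneg_right (by norm_num) (by positivity)

theorem one_sub_sum_le_prod' (S : Finset ℕ) (x : ℕ → ℝ) (h : ∀ p ∈ S, 0 ≤ x p ∧ x p ≤ 1) :
    1 - ∑ p ∈ S, x p ≤ ∏ p ∈ S, (1 - x p) := by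
  induction S using Finset.induction_on with
  | empty => simp
  | insert p S hp ih =>
    rw [sum_insert hp, prod_insert hp]
    have h1 := ih fun q hq => h q (mem_insert_of_mem hq)
    have h2 := h p (mem_insert_self _ _)
    have h3 : 0 ≤ ∑ q ∈ S, x q := sum_nonneg fun q hq => (h q (mem_insert_of_mem hq)).1
    nlinarith [mul_le_mul_of_nonneg_left h1 (sub_nonneg.2 h2.2), mul_nonneg h2.1 h3]

theorem V_ge (z : ℕ) (hz : 2 ≤ z) : 1 / (60 * Real.log z) ≤ ∏ p ∈ PP 0 z, bb p := by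
  have h1 : ∏ p ∈ PP 0 z, (1 + 1 / (p : ℝ)) ≤ 15 * Real.log z := by
    refine le_trans (le_of_eq ?_) (mertens_b z hz)
    rw [prod_one_add]
    exact sum_congr rfl fun s _ => by simp [nn]
  have h2 : 1 - ∑ p ∈ PP 0 z, (1 / (p : ℝ)) ^ 2 ≤ ∏ p ∈ PP 0 z, (1 - (1 / (p : ℝ)) ^ 2) := by
    refine one_sub_sum_le_prod' _ _ fun p hp => ⟨by positivity, pow_le_one₀ (by positivity) ?_⟩
    exact div_le_one_of_le₀ (by exact_mod_cast (PP_prime hp).one_le) (by positivity)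
  have h3 : ∑ p ∈ PP 0 z, (1 / (p : ℝ)) ^ 2 ≤ 3 / 4 := by
    have h4 : ∑ p ∈ PP 0 z, (1 / (p : ℝ)) ^ 2 ≤ ∑ p ∈ insert 2 (Ioc 2 z), (1 / (p : ℝ)) ^ 2 := by
      refine sum_le_sum_of_subset_of_nonneg (fun p hp => ?_) fun p _ _ => by positivity
      have := (mem_PP _ _ _).1 hp
      have := this.2.two_le
      simp only [mem_insert, mem_Ioc]
      omega
    rw [sum_insert (by simp)] at h4
    have := inv_sq_tail 2 z two_pos
    norm_num at h4 this ⊢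
    linarith
  have h4 : ∏ p ∈ PP 0 z, (1 - (1 / (p : ℝ)) ^ 2) =
      (∏ p ∈ PP 0 z, bb p) * ∏ p ∈ PP 0 z, (1 + 1 / (p : ℝ)) := by
    rw [← prod_mul_distrib]
    exact prod_congr rfl fun p _ => by unfold bb; ring
  have h5 := mul_le_mul_of_nonneg_left h1 (prod_nonneg fun p (_ : p ∈ PP 0 z) => bb_nonneg p)
  have h6 : 0 < Real.log z := Real.log_pos (by exact_mod_cast hz)
  rw [div_le_iff₀ (by positivity)]
  linarith

end Pool.Agent.MP_d228e7_nt
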